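import Pool.Agent.Lib.MP_b5021c_nt.KO.H89.PowE
import Pool.Agent.Lib.MP_b5021c_nt.KO.H52.T00
import Pool.Agent.Lib.MP_b5021c_nt.B.H36.Evr
import Pool.Agent.Lib.MP_b5021c_nt.IfaceOF

/-!
# Board b5, K ODD, PURE BETA, row POW': the structural part

`S0`, `S1`: two mutual rays at the loads `u0`, `u1`; `T i`: the outside rays, all of type A, at the
loads `lam i`; all ports are disjoint; `psi_1 = z f ∏ (1 - x_i)`.
-/

namespace Pool.Agent.B5.PowR

open Complex Polynomial
open scoped LaurentPolynomial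
open Pool.Agent.B5.H52.T00 (evR_pl)

lemma sum_fin_succ {M : Type*} [AddCommMonoid M] (n : ℕ) (F : Finset (Fin (n + 1)) → M) :
    ∑ I, F I = ∑ J : Finset (Fin n), F (J.image Fin.succ) +
      ∑ J : Finset (Fin n), F (insert 0 (J.image Fin.succ)) := by
  classical
  have h1 : (Finset.univ : Finset (Finset (Fin (n + 1)))) =
      (insert 0 ((Finset.univ : Finset (Fin n)).image Fin.succ)).powerset := by
    rw [← Finset.powerset_univ]
    congr 1
    ext i
    simp only [Finset.mem_univ, Finset.mem_insert, Finset.mem_image, true_and, true_iff]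
    rcases Fin.eq_zero_or_eq_succ i with h | ⟨j, h⟩
    · exact Or.inl h
    · exact Or.inr ⟨j, h.symm⟩
  have hinj : Function.Injective (fun J : Finset (Fin n) => J.image Fin.succ) :=
    Finset.image_injective (Fin.succ_injective n)
  have h0 : (0 : Fin (n + 1)) ∉ (Finset.univ : Finset (Fin n)).image Fin.succ := by
    simp only [Finset.mem_image, Finset.mem_univ, true_and, not_exists]
    exact fun j => Fin.succ_ne_zero j
  rw [h1, Finset.sum_powerset_insert h0, Finset.powerset_image, Finset.sum_image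
    (fun a _ b _ h => hinj h), Finset.sum_image (fun a _ b _ h => hinj h), Finset.powerset_univ]

lemma sum_im {M : Type*} [AddCommMonoid M] {n : ℕ} (J : Finset (Fin n)) (g : Fin (n + 1) → M) :
    ∑ i ∈ J.image Fin.succ, g i = ∑ i ∈ J, g i.succ :=
  Finset.sum_image (fun _ _ _ _ h => Fin.succ_injective n h)

lemma prod_im {M : Type*} [CommMonoid M] {n : ℕ} (J : Finset (Fin n)) (g : Fin (n + 1) → M) :
    ∏ i ∈ J.image Fin.succ, g i = ∏ i ∈ J, g i.succ :=
  Finset.prod_image (fun _ _ _ _ h => Fin.succ_injective n h)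

lemma zero_nin {n : ℕ} (J : Finset (Fin n)) : (0 : Fin (n + 1)) ∉ J.image Fin.succ := by
  simp only [Finset.mem_image, not_exists, not_and]
  exact fun j _ => Fin.succ_ne_zero j

section

variable {P L : Type} [Fintype P] [DecidableEq P] [AddCommGroup L] [Module.Free ℤ L]
  [Module.Finite ℤ L] {phi : L →+ (P → ℤ)} {D : AO ℤ L}

/-- The multi-affine face of `S0`, `S1` and the `T i`. -/
theorem face_multi (hF : FcmS) (hD : DD phi D) (h2 : 2 ≤ Module.finrank ℤ L) {s : ℕ} (S0 S1 : L)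
    (T : Fin s → L) (u0 u1 : (RO ℤ)ˣ) (lam : Fin s → (RO ℤ)ˣ) (b0 : Bin phi S0) (b1 : Bin phi S1)
    (bT : ∀ i, Bin phi (T i)) (n0 : S0 ≠ 0) (n1 : S1 ≠ 0) (nT : ∀ i, T i ≠ 0)
    (d01 : ∀ p, phi S0 p = 0 ∨ phi S1 p = 0) (d0T : ∀ i p, phi S0 p = 0 ∨ phi (T i) p = 0)
    (d1T : ∀ i p, phi S1 p = 0 ∨ phi (T i) p = 0)
    (dTT : ∀ i j, i ≠ j → ∀ p, phi (T i) p = 0 ∨ phi (T j) p = 0) (z : Circle)
    (x : Fin s → ℂ) (y0 y1 : ℂ) (hx : ∀ i, ‖x i‖ < 1) (hy0 : ‖y0‖ < 1) (hy1 : ‖y1‖ < 1) :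
    ∑ J : Finset (Fin s), (∏ i ∈ J, evR z (lam i : RO ℤ)) *
      (evR z (D.coeff (∑ i ∈ J, T i)) + y0 * (evR z (u0 : RO ℤ) * evR z (D.coeff (S0 + ∑ i ∈ J, T i))) +
        y1 * (evR z (u1 : RO ℤ) * evR z (D.coeff (S1 + ∑ i ∈ J, T i))) +
        y0 * y1 * (evR z (u0 : RO ℤ) * evR z (u1 : RO ℤ) * evR z (D.coeff (S0 + S1 + ∑ i ∈ J, T i)))) *
      ∏ i ∈ J, x i ≠ 0 := by
  have hn : ∀ u : (RO ℤ)ˣ, ‖evR z (u : RO ℤ)‖ = 1 := fun u => H36.norm_evR_unit z _ u.isUnit
  have h := hF ℤ P L phi D (s + 1 + 1) (Fin.cons S0 (Fin.cons S1 T)) hD h2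
    (by
      intro i
      refine Fin.cases ?_ (fun i => ?_) i
      · simpa using b0
      · refine Fin.cases ?_ (fun i => ?_) i
        · simpa using b1
        · simpa using bT i)
    (by
      intro i
      refine Fin.cases ?_ (fun i => ?_) i
      · simpa using n0
      · refine Fin.cases ?_ (fun i => ?_) i
        · simpa using n1
        · simpa using nT i)
    (by
      intro i
      refine Fin.cases ?_ (fun i => ?_) i
      · intro j
        refine Fin.cases ?_ (fun j => ?_) j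
        · intro hij
          exact absurd rfl hij
        · intro _ p
          refine Fin.cases ?_ (fun j => ?_) j
          · simpa using d01 p
          · simpa using d0T j p
      · intro j
        refine Fin.cases ?_ (fun j => ?_) j
        · intro _ p
          refine Fin.cases ?_ (fun i => ?_) i
          · simpa using (d01 p).symm
          · simpa using (d0T i p).symm
        · intro hij p
          have hij' : i ≠ j := fun hh => hij (by rw [hh])
          revert hij'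
          refine Fin.cases ?_ (fun i => ?_) i
          · refine Fin.cases ?_ (fun j => ?_) j
            · intro hh
              exact absurd rfl hh
            · intro _
              simpa using d1T j p
          · refine Fin.cases ?_ (fun j => ?_) j
            · intro _
              simpa using (d1T i p).symm
            · intro hh
              have : i ≠ j := fun h3 => hh (by rw [h3])
              simpa using dTT i j this p)
    z (Fin.cons (evR z (u0 : RO ℤ) * y0) (Fin.cons (evR z (u1 : RO ℤ) * y1)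
      (fun i => evR z (lam i : RO ℤ) * x i)))
    (by
      intro i
      refine Fin.cases ?_ (fun i => ?_) i
      · simp only [Fin.cons_zero, norm_mul, hn, one_mul]
        exact hy0
      · refine Fin.cases ?_ (fun i => ?_) i
        · simp only [Fin.cons_succ, Fin.cons_zero, norm_mul, hn, one_mul]
          exact hy1
        · simp only [Fin.cons_succ, norm_mul, hn, one_mul]
          exact hx i)
  rw [sum_fin_succ, sum_fin_succ, sum_fin_succ] at h
  intro hcon
  apply h
  rw [← hcon, ← Finset.sum_add_distrib, ← Finset.sum_add_distrib, ← Finset.sum_add_distrib]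
  apply Finset.sum_congr rfl
  intro J _
  have hz1 : (0 : Fin (s + 1 + 1)) ∉ (insert 0 (J.image Fin.succ) : Finset (Fin (s + 1))).image
      Fin.succ := zero_nin _
  simp only [Finset.sum_insert (zero_nin _), Finset.prod_insert (zero_nin _), sum_im, prod_im,
    Fin.cons_succ, Fin.cons_zero, Finset.prod_mul_distrib, add_assoc]
  ring

/-- ROW POW' with the structural data. `S0`, `S1` are mutual at the loads `u0`, `u1` with the value
`z f`; all `T i` are of type A at the loads `lam i`; `psi_1 = z f ∏ (1 - x_i)`. -/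
theorem pow_str (hF : FcmS) (hD : DD phi D) (h2 : 2 ≤ Module.finrank ℤ L) {N s : ℕ} (hN : 4 ≤ N)
    (hs : s + 2 = 2 * N) (S0 S1 : L)
    (T : Fin s → L) (u0 u1 : (RO ℤ)ˣ) (lam : Fin s → (RO ℤ)ˣ) (b0 : Bin phi S0) (b1 : Bin phi S1)
    (bT : ∀ i, Bin phi (T i)) (n0 : S0 ≠ 0) (n1 : S1 ≠ 0) (nT : ∀ i, T i ≠ 0)
    (d01 : ∀ p, phi S0 p = 0 ∨ phi S1 p = 0) (d0T : ∀ i p, phi S0 p = 0 ∨ phi (T i) p = 0)
    (d1T : ∀ i p, phi S1 p = 0 ∨ phi (T i) p = 0)
    (dTT : ∀ i j, i ≠ j → ∀ p, phi (T i) p = 0 ∨ phi (T j) p = 0)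
    {q f E0 : ℤ[X]} {Ei : Fin s → ℤ[X]} (hq : D.coeff 0 = toLaurent q) (hE : f - q = X * E0)
    (hT : ∀ i, (lam i : RO ℤ) * D.coeff (T i) = -toLaurent (q + X * Ei i))
    (h0 : ∀ J : Finset (Fin s), (u0 : RO ℤ) * (∏ i ∈ J, (lam i : RO ℤ)) *
      D.coeff (S0 + ∑ i ∈ J, T i) = (-1) ^ J.card * toLaurent (X * f))
    (h1 : ∀ J : Finset (Fin s), (u1 : RO ℤ) * (∏ i ∈ J, (lam i : RO ℤ)) *
      D.coeff (S1 + ∑ i ∈ J, T i) = (-1) ^ J.card * toLaurent (X * f))
    (h01 : ∀ J : Finset (Fin s), (u0 : RO ℤ) * (u1 : RO ℤ) * (∏ i ∈ J, (lam i : RO ℤ)) *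
      D.coeff (S0 + S1 + ∑ i ∈ J, T i) = -((-1) ^ J.card * toLaurent (X * f)))
    (hf : f.coeff 0 = 1) (hE0 : E0.coeff 0 = N + 1) (hi : ∀ i, (N:ℤ) - 1 ≤ (Ei i).coeff 0)
    (hz : ∀ z : ℂ, ‖z‖ ≤ 1 → (aeval z E0 : ℂ) ≠ 0) : False := by
  refine pow_row' N s hN hs f E0 Ei (fun z hz1 => ?_) hf hE0 hi hz
  obtain ⟨w, rfl⟩ : ∃ w : Circle, (w : ℂ) = z := ⟨⟨z, by simpa [Submonoid.unitSphere] using hz1⟩, rfl⟩
  refine ⟨fun J => (∏ i ∈ J, evR w (lam i : RO ℤ)) * evR w (D.coeff (∑ i ∈ J, T i)), ?_, ?_, ?_⟩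
  · intro x y0 y1 hx hy0 hy1 hcon
    refine face_multi hF hD h2 S0 S1 T u0 u1 lam b0 b1 bT n0 n1 nT d01 d0T d1T dTT w x y0 y1 hx hy0
      hy1 ?_
    rw [← hcon]
    have hprod : ∏ i, (1 - x i) = ∑ J : Finset (Fin s), (-1) ^ J.card * ∏ i ∈ J, x i := by
      rw [Finset.prod_sub, ← Finset.powerset_univ]
      simp
    rw [hprod, ma, Finset.mul_sum, Finset.sum_mul, ← Finset.sum_add_distrib]
    apply Finset.sum_congr rfl
    intro J _
    have g0 := congrArg (evR w) (h0 J)
    have g1 := congrArg (evR w) (h1 J)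
    have g01 := congrArg (evR w) (h01 J)
    simp only [map_mul, map_neg, map_pow, map_one, map_prod, evR_pl, aeval_X] at g0 g1 g01
    linear_combination (y0 * ∏ i ∈ J, x i) * g0 + (y1 * ∏ i ∈ J, x i) * g1 +
      (y0 * y1 * ∏ i ∈ J, x i) * g01
  · have h3 : (aeval (w : ℂ) (f - q) : ℂ) = aeval (w : ℂ) (X * E0) := by rw [hE]
    rw [map_sub, map_mul, aeval_X] at h3
    rw [ma_zero]
    simp only [Finset.prod_empty, Finset.sum_empty, hq, evR_pl]
    linear_combination -h3
  · intro i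
    have h3 := congrArg (evR w) (hT i)
    simp only [map_mul, map_neg, evR_pl, map_add, aeval_X] at h3
    rw [ma_single]
    simp only [Finset.prod_empty, Finset.sum_empty, hq, evR_pl, Finset.prod_singleton,
      Finset.sum_singleton]
    linear_combination h3

end

end Pool.Agent.B5.PowR
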