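import Pool.Agent.Lib.MP_b5021c_nt.KO.H89.PowE

/-!
# Board b5, K ODD, PURE BETA, row POW'' part A: at one point of the circle

With `U = z E_0 - (1 - 3z/4) f`: `9/4 |f| ≤ |U|` and `|z ∑ E^i / U| ≤ 2 log (|U| / (9/4 |f|))`.
-/

namespace Pool.Agent.B5.PowR

open Complex Polynomial

/-- The image of the disc under a Moebius map with a pole on the circle is a half plane; it avoids
the cardioid, so it avoids the disc `|R - 7/4| < 9/4`. -/
lemma half_disc (A0 A1 b x0 : ℂ) (hb : b ≠ 0) (hx0 : ‖x0‖ < 1)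
    (h : ∀ x y0 y1 : ℂ, ‖x‖ < 1 → ‖y0‖ < 1 → ‖y1‖ < 1 →
      A0 + A1 * x ≠ b * (1 - x) * ((1 - y0) * (1 - y1)))
    (hne : A0 + A1 ≠ 0) :
    9 / 4 * ‖b‖ * ‖1 - x0‖ ≤ ‖A0 + A1 * x0 - 7 / 4 * (b * (1 - x0))‖ := by
  obtain ⟨al, hal⟩ : ∃ al, al = (A0 - A1) / (2*b) := ⟨_, rfl⟩
  obtain ⟨be, hbe⟩ : ∃ be, be = (A0 + A1) / (2*b) := ⟨_, rfl⟩
  have h2b : (2*b) ≠ 0 := mul_ne_zero two_ne_zero hb
  have hbe0 : be ≠ 0 := by rw [hbe]; exact div_ne_zero hne h2b
  have hA0 : A0 = b * (al + be) := by rw [hal, hbe]; field_simp; ring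
  have hA1 : A1 = b * (be - al) := by rw [hal, hbe]; field_simp; ring
  -- the half plane avoids the open cardioid
  have h1 : ∀ y0 y1 : ℂ, ‖y0‖ < 1 → ‖y1‖ < 1 → (((1 - y0) * (1 - y1) - al) / be).re ≤ 0 := by
    intro y0 y1 hy0 hy1
    by_contra hcon
    push Not at hcon
    obtain ⟨ze, hze⟩ : ∃ ze, ze = ((1 - y0) * (1 - y1) - al) / be := ⟨_, rfl⟩
    rw [← hze] at hcon
    have hk : (1 - y0) * (1 - y1) = al + be * ze := by rw [hze]; field_simp; ring
    have hz1 : ze + 1 ≠ 0 := by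
      intro h0
      have := congrArg Complex.re h0
      simp at this
      linarith
    have hx : ‖(ze - 1) / (ze + 1)‖ < 1 := by
      rw [norm_div, div_lt_one (norm_pos_iff.mpr hz1)]
      rw [← abs_of_nonneg (norm_nonneg (ze - 1)), ← abs_of_nonneg (norm_nonneg (ze+1)), ← sq_lt_sq,
        ← Complex.normSq_eq_norm_sq, ← Complex.normSq_eq_norm_sq, Complex.normSq_apply,
        Complex.normSq_apply]
      simp only [Complex.sub_re, Complex.add_re, Complex.one_re, Complex.sub_im, Complex.add_im,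
        Complex.one_im]
      nlinarith
    apply h _ y0 y1 hx hy0 hy1
    rw [hk, hA0, hA1]
    field_simp
    ring
  -- closure
  have h2 : ∀ y0 y1 : ℂ, ‖y0‖ ≤ 1 → ‖y1‖ ≤ 1 → (((1 - y0) * (1 - y1) - al) / be).re ≤ 0 := by
    intro y0 y1 hy0 hy1
    have hc : Continuous fun r : ℝ => (((1 - r*y0) * (1 - r*y1) - al) / be).re := by
      apply Complex.continuous_re.comp
      exact (((continuous_const.sub (Complex.continuous_ofReal.mul continuous_const)).mul
        (continuous_const.sub (Complex.continuous_ofReal.mul continuous_const))).sub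
        continuous_const).div_const _
    have ht := (hc.tendsto 1).mono_left (nhdsWithin_le_nhds (s := Set.Iio 1))
    have hle := le_of_tendsto ht (b := 0) (by
      have : Set.Ioo (0:ℝ) 1 ∈ nhdsWithin (1:ℝ) (Set.Iio 1) := Ioo_mem_nhdsLT (by norm_num)
      filter_upwards [this] with r hr
      apply h1
      · rw [norm_mul, Complex.norm_real, Real.norm_of_nonneg hr.1.le]
        nlinarith [norm_nonneg y0, hr.1, hr.2]
      · rw [norm_mul, Complex.norm_real, Real.norm_of_nonneg hr.1.le]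
        nlinarith [norm_nonneg y1, hr.1, hr.2])
    simpa using hle
  -- direction
  obtain ⟨t, ht⟩ : ∃ t : ℝ, t = arg be / 3 := ⟨_, rfl⟩
  have hpi := Real.pi_pos
  have ht1 : |t| ≤ Real.pi / 3 := by
    rw [ht, abs_div, abs_of_pos (by norm_num : (0:ℝ) < 3)]
    exact div_le_div_of_nonneg_right (Complex.abs_arg_le_pi be) (by norm_num)
  have hct : 1/2 ≤ Real.cos t := by
    rw [← Real.cos_pi_div_three, ← Real.cos_abs t]
    exact Real.cos_le_cos_of_nonneg_of_le_pi (abs_nonneg _) (by linarith) ht1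
  have hbee : be = ‖be‖ * exp ((3*t : ℝ) * I) := by
    conv_lhs => rw [← Complex.norm_mul_exp_arg_mul_I be]
    congr 3
    rw [ht]; push_cast; ring
  have hnb : 0 < ‖be‖ := norm_pos_iff.mpr hbe0
  -- the point of the cardioid
  have h3 := h2 (-exp ((2*t : ℝ) * I)) (-exp ((2*t : ℝ) * I)) (by rw [norm_neg, Complex.norm_exp_ofReal_mul_I])
    (by rw [norm_neg, Complex.norm_exp_ofReal_mul_I])
  have h4 : 4 * Real.cos t^3 ≤ (al * exp (-(3*t : ℝ) * I)).re := by
    have e1 : ((1 - -exp ((2*t : ℝ) * I)) * (1 - -exp ((2*t : ℝ) * I)) - al) / be =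
        (‖be‖⁻¹ : ℝ) * ((4 * (Real.cos t)^3 : ℝ) - al * exp (-(3*t : ℝ) * I) +
        ((4 * Real.cos t^2 * (-Real.sin t) : ℝ)) * I) := by
      have e2 : exp ((2*t : ℝ) * I) = exp ((t:ℝ) * I) * exp ((t:ℝ) * I) := by
        rw [← Complex.exp_add]; congr 1; push_cast; ring
      have e3 : (1 + exp ((2*t : ℝ) * I)) = 2 * (Real.cos t : ℝ) * exp ((t:ℝ) * I) := by
        have h5 : exp ((t:ℝ) * I) * exp (-(t:ℝ) * I) = 1 := by
          rw [← Complex.exp_add]; simp
        have h6 : (2 : ℂ) * (Real.cos t : ℝ) = exp ((t:ℝ) * I) + exp (-(t:ℝ) * I) := by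
          rw [Complex.ofReal_cos, Complex.cos]; ring
        rw [h6, e2, add_mul, mul_comm (exp (-(t:ℝ) * I)), h5]; ring
      have e4 : exp (-(3*t : ℝ) * I) * exp ((3*t : ℝ) * I) = 1 := by
        rw [← Complex.exp_add]; simp
      have e5 : exp ((t:ℝ) * I) * exp ((t:ℝ) * I) * exp (-(3*t : ℝ) * I) = exp (-(t:ℝ) * I) := by
        rw [← Complex.exp_add, ← Complex.exp_add]; congr 1; push_cast; ring
      have e6 : exp (-(t:ℝ) * I) = (Real.cos t : ℝ) - (Real.sin t : ℝ) * I := by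
        rw [show -(t:ℂ) * I = ((-t : ℝ) : ℂ) * I by push_cast; ring, Complex.exp_mul_I,
          ← Complex.ofReal_cos, ← Complex.ofReal_sin, Real.cos_neg, Real.sin_neg]
        push_cast; ring
      have hb1 : (‖be‖ : ℂ) ≠ 0 := by exact_mod_cast hnb.ne'
      have e8 : exp ((3*t : ℝ) * I) ≠ 0 := Complex.exp_ne_zero _
      have e7 : ∀ w : ℂ, w / be = (‖be‖⁻¹ : ℝ) * (w * exp (-(3*t : ℝ) * I)) := by
        intro w
        rw [div_eq_iff hbe0, Complex.ofReal_inv]
        have e10 : (‖be‖ : ℂ)⁻¹ * (w * exp (-(3*t : ℝ) * I)) * be =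
            ((‖be‖ : ℂ)⁻¹ * ‖be‖) * w * (exp (-(3*t : ℝ) * I) * exp ((3*t : ℝ) * I)) := by
          conv_lhs => rw [hbee]
          rw [norm_mul, Complex.norm_exp_ofReal_mul_I, mul_one, Complex.norm_real, norm_norm]
          ring
        rw [e10, e4, inv_mul_cancel₀ hb1]
        ring
      rw [e7]
      congr 1
      rw [sub_neg_eq_add, e3]
      have e9 : (2 * (Real.cos t : ℝ) * exp ((t:ℝ) * I) * (2 * (Real.cos t : ℝ) * exp ((t:ℝ) * I))
          - al) * exp (-(3*t : ℝ) * I) = 4 * (Real.cos t : ℝ)^2 *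
          (exp ((t:ℝ) * I) * exp ((t:ℝ) * I) * exp (-(3*t : ℝ) * I)) - al * exp (-(3*t : ℝ) * I) := by
        ring
      rw [e9, e5, e6]
      push_cast
      ring
    rw [e1, Complex.re_ofReal_mul] at h3
    have h5 : (((4 * (Real.cos t)^3 : ℝ) : ℂ) - al * exp (-(3*t : ℝ) * I) +
        ((4 * Real.cos t^2 * (-Real.sin t) : ℝ)) * I).re =
        4 * Real.cos t^3 - (al * exp (-(3*t : ℝ) * I)).re := by
      rw [Complex.add_re, Complex.sub_re, Complex.ofReal_re, Complex.re_ofReal_mul, Complex.I_re,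
        mul_zero, add_zero]
    rw [h5] at h3
    have h6 : 0 < ‖be‖⁻¹ := inv_pos.mpr hnb
    by_contra hcon
    push Not at hcon
    nlinarith [mul_pos h6 (sub_pos.mpr hcon)]
  -- conclusion
  have h1x : 1 - x0 ≠ 0 := by
    intro h0
    rw [← sub_eq_zero.mp h0, norm_one] at hx0
    exact lt_irrefl _ hx0
  obtain ⟨ze, hze⟩ : ∃ ze, ze = (1 + x0) / (1 - x0) := ⟨_, rfl⟩
  have hzre : 0 ≤ ze.re := by
    have h5 : ze.re = (1 - ‖x0‖ ^ 2) / ‖1 - x0‖ ^ 2 := by
      rw [hze, Complex.div_re, ← Complex.normSq_eq_norm_sq, ← Complex.normSq_eq_norm_sq,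
        Complex.normSq_apply x0]
      simp only [Complex.add_re, Complex.sub_re, Complex.one_re, Complex.add_im, Complex.sub_im,
        Complex.one_im]
      ring
    rw [h5]
    apply div_nonneg _ (by positivity)
    nlinarith [norm_nonneg x0]
  have hR : A0 + A1 * x0 - 7 / 4 * (b * (1 - x0)) = b * (1 - x0) * (al + be * ze - 7 / 4) := by
    rw [hA0, hA1, hze]
    field_simp
    ring
  have h5 : (be * ze * exp (-(3*t : ℝ) * I)).re = ‖be‖ * ze.re := by
    have e4 : exp ((3*t : ℝ) * I) * exp (-(3*t : ℝ) * I) = 1 := by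
      rw [← Complex.exp_add, show ((3*t : ℝ) : ℂ) * I + -((3*t : ℝ) : ℂ) * I = 0 by ring,
        Complex.exp_zero]
    have e5 : be * ze * exp (-(3*t : ℝ) * I) = ((‖be‖ : ℝ) : ℂ) * ze := by
      have e6 : be * ze * exp (-(3*t : ℝ) * I) =
          (‖be‖ : ℂ) * exp ((3*t : ℝ) * I) * ze * exp (-(3*t : ℝ) * I) := by
        conv_lhs => rw [hbee]
      rw [e6]
      linear_combination ((‖be‖ : ℂ) * ze) * e4
    rw [e5, Complex.re_ofReal_mul]
  have h6 : ((7 / 4 : ℂ) * exp (-(3*t : ℝ) * I)).re = 7 / 4 * Real.cos (3 * t) := by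
    rw [show ((7 / 4 : ℂ)) = (((7 / 4 : ℝ)) : ℂ) by push_cast; ring,
      show -((3*t : ℝ) : ℂ) * I = ((-(3*t) : ℝ) : ℂ) * I by push_cast; ring,
      Complex.re_ofReal_mul, Complex.exp_ofReal_mul_I_re, Real.cos_neg]
  have h7 : (9:ℝ) / 4 ≤ ‖al + be * ze - 7 / 4‖ := by
    have h8 : ((al + be * ze - 7 / 4) * exp (-(3*t : ℝ) * I)).re ≤ ‖al + be * ze - 7 / 4‖ := by
      refine (Complex.re_le_norm _).trans ?_
      rw [norm_mul, show -((3*t : ℝ) : ℂ) * I = ((-(3*t) : ℝ) : ℂ) * I by push_cast; ring,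
        Complex.norm_exp_ofReal_mul_I, mul_one]
    refine le_trans ?_ h8
    rw [sub_mul, add_mul, Complex.sub_re, Complex.add_re, h5, h6, Real.cos_three_mul]
    have hc1 : Real.cos t ≤ 1 := Real.cos_le_one t
    have h9 : 0 ≤ ‖be‖ * ze.re := mul_nonneg hnb.le hzre
    nlinarith [mul_nonneg (mul_nonneg (sub_nonneg.mpr hc1) (by linarith : 0 ≤ 2 * Real.cos t - 1))
      (by linarith : 0 ≤ 2 * Real.cos t + 3)]
  rw [hR, norm_mul, norm_mul]
  calc 9 / 4 * ‖b‖ * ‖1 - x0‖ = ‖b‖ * ‖1 - x0‖ * (9 / 4) := by ring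
    _ ≤ _ := mul_le_mul_of_nonneg_left h7 (by positivity)

/-- The Schwarz lemma for `log (q(t) / (1-t)^s)`, with the norm. -/
lemma schwarz_norm (q : ℂ[X]) (s : ℕ) (a : ℝ) (ha : 0 < a)
    (h : ∀ t : ℂ, ‖t‖ < 1 → a * ‖1 - t‖ ^ s ≤ ‖q.eval t‖) :
    ‖q.derivative.eval 0 / q.eval 0 + s‖ ≤ 2 * Real.log (‖q.eval 0‖ / a) := by
  have hne1 : ∀ t : ℂ, ‖t‖ < 1 → 1 - t ≠ 0 := by
    intro t ht h
    rw [← sub_eq_zero.mp h, norm_one] at ht
    exact lt_irrefl _ ht
  have h0 : ∀ t : ℂ, ‖t‖ < 1 → q.eval t ≠ 0 := by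
    intro t ht h1
    have h2 := h t ht
    rw [h1, norm_zero] at h2
    have h3 : 0 < a * ‖1 - t‖ ^ s := mul_pos ha (pow_pos (norm_pos_iff.mpr (hne1 t ht)) s)
    linarith
  have hq0 : q ≠ 0 := by
    intro h1; exact h0 0 (by simp) (by rw [h1]; simp)
  have hsp : q.Splits := IsAlgClosed.splits q
  have hr : ∀ r ∈ q.roots, 1 ≤ ‖r‖ := by
    intro r hr
    by_contra hcon
    push Not at hcon
    exact h0 r hcon (Polynomial.isRoot_of_mem_roots hr)
  have hr0 : ∀ r ∈ q.roots, r ≠ 0 := by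
    intro r h1 h2
    have := hr r h1
    rw [h2, norm_zero] at this
    linarith
  have hq := hsp.eq_prod_roots
  have he : ∀ t : ℂ, q.eval t = q.leadingCoeff * (q.roots.map fun r => t - r).prod := by
    intro t
    conv_lhs => rw [hq]
    rw [Polynomial.eval_mul, Polynomial.eval_C, Polynomial.eval_multiset_prod, Multiset.map_map]
    congr 2
    apply Multiset.map_congr rfl
    intro r _
    simp
  obtain ⟨m, hm⟩ : ∃ m, m = q.roots.map fun r => r⁻¹ := ⟨_, rfl⟩
  have hm1 : ∀ w ∈ m, ‖w‖ ≤ 1 := by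
    intro w hw
    rw [hm, Multiset.mem_map] at hw
    obtain ⟨r, hr1, rfl⟩ := hw
    rw [norm_inv]
    exact inv_le_one_of_one_le₀ (hr r hr1)
  have e1 : ∀ t : ℂ, q.eval t = q.eval 0 * (m.map fun w => 1 - t * w).prod := by
    intro t
    rw [he t, he 0, mul_assoc, hm, Multiset.map_map, ← Multiset.prod_map_mul]
    congr 2
    apply Multiset.map_congr rfl
    intro r hr1
    have := hr0 r hr1
    simp only [Function.comp]
    field_simp
    ring
  have e2 : q.derivative.eval 0 / q.eval 0 = -m.sum := by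
    rw [hsp.eval_derivative_div_eval_of_ne_zero (h0 0 (by simp)), hm,
      ← Multiset.sum_map_neg', Multiset.map_map]
    congr 1
    apply Multiset.map_congr rfl
    intro r _
    simp only [Function.comp, zero_sub, one_div, inv_neg]
  have hP0 : 0 < ‖q.eval 0‖ := norm_pos_iff.mpr (h0 0 (by simp))
  -- the logarithm
  obtain ⟨Lf, hL⟩ : ∃ Lf : ℂ → ℂ, Lf = fun t => s * log (1 - t) - (m.map fun w => log (1 - t * w)).sum := ⟨_, rfl⟩
  have hder : ∀ t : ℂ, ‖t‖ < 1 → HasDerivAt Lf (s * (-1 / (1 - t)) - (m.map fun w => -w / (1 - t * w)).sum) t := by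
    intro t ht
    rw [hL]
    apply HasDerivAt.sub _ (hasDerivAt_sumlog m hm1 t ht)
    have h2 : (1 - t) ∈ slitPlane := by
      rw [sub_eq_add_neg]
      apply Complex.mem_slitPlane_of_norm_lt_one
      rwa [norm_neg]
    have h3 : HasDerivAt (fun t : ℂ => 1 - t) (-1) t := by
      simpa using (hasDerivAt_id t).const_sub 1
    exact (h3.clog h2).const_mul (s:ℂ)
  have hre : ∀ t : ℂ, ‖t‖ < 1 → (Lf t).re ≤ Real.log (‖q.eval 0‖ / a) := by
    intro t ht
    rw [hL]
    simp only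
    rw [Complex.sub_re, re_sumlog m hm1 t ht]
    have h2 : ((s:ℂ) * log (1 - t)).re = s * Real.log ‖1 - t‖ := by
      rw [show ((s:ℂ)) = ((s:ℝ):ℂ) by simp, Complex.re_ofReal_mul, Complex.log_re]
    rw [h2]
    have h3 := h t ht
    have h1t : 0 < ‖1 - t‖ := norm_pos_iff.mpr (hne1 t ht)
    have hpm : 0 < ‖(m.map fun w => 1 - t * w).prod‖ := by
      rw [norm_pos_iff]
      intro h4
      exact h0 t ht (by rw [e1 t, h4, mul_zero])
    rw [e1 t, norm_mul] at h3
    have h4 := Real.log_le_log (by positivity) h3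
    rw [Real.log_mul ha.ne' (by positivity), Real.log_pow, Real.log_mul hP0.ne' hpm.ne'] at h4
    rw [Real.log_div hP0.ne' ha.ne']
    linarith
  have hL0 : Lf 0 = 0 := by rw [hL]; simp
  have hM0 : 0 ≤ Real.log (‖q.eval 0‖ / a) := by
    have := hre 0 (by simp)
    rwa [hL0, Complex.zero_re] at this
  have hd0 := hder 0 (by simp)
  have hval : (s * (-1 / (1 - (0:ℂ))) - (m.map fun w => -w / (1 - 0 * w)).sum) = -(q.derivative.eval 0 / q.eval 0 + s) := by
    rw [e2]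
    have : (m.map fun w => -w / (1 - 0 * w)).sum = -m.sum := by
      rw [← Multiset.sum_map_neg']
      congr 1
      apply Multiset.map_congr rfl
      intro w _; simp
    rw [this]
    simp
  rw [hval] at hd0
  -- Borel-Caratheodory
  have hbc : ∀ e : ℝ, 0 < e → ‖q.derivative.eval 0 / q.eval 0 + (s:ℂ)‖ ≤
      2 * (Real.log (‖q.eval 0‖ / a) + e) := by
    intro e he
    have hM : 0 < Real.log (‖q.eval 0‖ / a) + e := by linarith
    have hb : ∀ t : ℂ, t ∈ Metric.ball (0:ℂ) 1 → ‖Lf t‖ ≤ 2 * (Real.log (‖q.eval 0‖ / a) + e) * ‖t‖ / (1 - ‖t‖) := by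
      intro t ht
      apply Complex.borelCaratheodory_zero hM (f := Lf) (R := 1) _ _ one_pos ht hL0
      · intro x hx
        exact (hder x (mem_ball_zero_iff.mp hx)).differentiableAt.differentiableWithinAt
      · intro x hx
        have := hre x (mem_ball_zero_iff.mp hx)
        show (Lf x).re ≤ _
        linarith
    have hslope := hd0.tendsto_slope_zero.norm
    rw [norm_neg] at hslope
    have hc : Filter.Tendsto (fun t : ℂ => 2 * (Real.log (‖q.eval 0‖ / a) + e) / (1 - ‖t‖))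
        (nhdsWithin 0 {0}ᶜ) (nhds (2 * (Real.log (‖q.eval 0‖ / a) + e) / (1 - ‖(0:ℂ)‖))) := by
      apply Filter.Tendsto.mono_left _ nhdsWithin_le_nhds
      apply ContinuousAt.tendsto
      apply ContinuousAt.div continuousAt_const (by fun_prop)
      simp
    have hle := le_of_tendsto_of_tendsto hslope hc (by
      have h5 : Metric.ball (0:ℂ) 1 ∈ nhdsWithin (0:ℂ) {0}ᶜ := nhdsWithin_le_nhds (Metric.ball_mem_nhds 0 one_pos)
      filter_upwards [h5, self_mem_nhdsWithin] with t ht1 ht2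
      have ht3 : 0 < ‖t‖ := norm_pos_iff.mpr ht2
      have ht4 : 0 < 1 - ‖t‖ := by linarith [mem_ball_zero_iff.mp ht1]
      have h6 := hb t ht1
      rw [zero_add, hL0, sub_zero, norm_smul, norm_inv, le_div_iff₀ ht4]
      rw [le_div_iff₀ ht4] at h6
      have h7 : ‖t‖⁻¹ * ‖Lf t‖ * (1 - ‖t‖) = ‖t‖⁻¹ * (‖Lf t‖ * (1 - ‖t‖)) := by ring
      rw [h7]
      calc ‖t‖⁻¹ * (‖Lf t‖ * (1 - ‖t‖)) ≤ ‖t‖⁻¹ * (2 * (Real.log (‖q.eval 0‖ / a) + e) * ‖t‖) :=
            mul_le_mul_of_nonneg_left h6 (inv_nonneg.mpr ht3.le)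
        _ = 2 * (Real.log (‖q.eval 0‖ / a) + e) := by field_simp)
    simpa using hle
  have hfin : ‖q.derivative.eval 0 / q.eval 0 + (s:ℂ)‖ ≤ 2 * Real.log (‖q.eval 0‖ / a) := by
    apply le_of_forall_pos_le_add
    intro e he
    have := hbc (e/2) (by linarith)
    linarith
  exact hfin

/-- At one point of the circle, with the disc `|R - 7/4| < 9/4`. -/
theorem pw_point {s : ℕ} (a : Finset (Fin s) → ℂ) (f z e0 : ℂ) (ei : Fin s → ℂ) (hz : ‖z‖ = 1)
    (hst : ∀ (x : Fin s → ℂ) (y0 y1 : ℂ), (∀ i, ‖x i‖ < 1) → ‖y0‖ < 1 → ‖y1‖ < 1 →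
      ma a x + z * f * (∏ i, (1 - x i)) * (1 - (1 - y0) * (1 - y1)) ≠ 0)
    (h0 : ma a 0 - f = -z * e0) (hi : ∀ i, ma a (Pi.single i 1) = -z * ei i) (hf : f ≠ 0)
    (i : Fin s) (hne : ei i ≠ 0) :
    9 / 4 * ‖f‖ ≤ ‖z * e0 - (1 - 3 / 4 * z) * f‖ ∧
    ‖z * (∑ i, ei i) / (z * e0 - (1 - 3 / 4 * z) * f)‖ ≤
      2 * Real.log (‖z * e0 - (1 - 3 / 4 * z) * f‖ / (9 / 4 * ‖f‖)) := by
  classical
  have hz0 : z ≠ 0 := by intro h; rw [h, norm_zero] at hz; exact one_ne_zero hz.symm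
  have hs : s ≠ 0 := by rintro rfl; exact i.elim0
  obtain ⟨P, hP⟩ : ∃ P : ℂ[X], P = dg a - C (3 / 4 * z * f) * (1 - X) ^ s := ⟨_, rfl⟩
  have hPe : ∀ t : ℂ, P.eval t = ma a (fun _ => t) - 3 / 4 * z * f * (1 - t) ^ s := by
    intro t
    rw [hP]; simp [dg_eval]
  have hPr : P.derivative.eval 0 = ∑ i, a {i} + 3 / 4 * z * f * s := by
    rw [hP]
    simp [dg_der, Polynomial.derivative_pow]
  have h6 : a ∅ = f - z * e0 := by
    rw [ma_zero] at h0; linear_combination h0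
  have hP0 : P.eval 0 = -(z * e0 - (1 - 3 / 4 * z) * f) := by
    rw [hPe]
    have : (fun _ => (0:ℂ) : Fin s → ℂ) = 0 := rfl
    rw [this, ma_zero, h6]
    simp
    ring
  -- the polynomial `ma a` on `x_i = 1`, the other variables `t`
  obtain ⟨X0, hX0⟩ : ∃ X0 : ℂ → Fin s → ℂ, X0 = fun (t : ℂ) (_ : Fin s) => t := ⟨_, rfl⟩
  obtain ⟨Q, hQ⟩ : ∃ Q : ℂ[X], Q = ∑ S : Finset (Fin s), C (a S) * X ^ (S.erase i).card := ⟨_, rfl⟩
  have hQe : ∀ t : ℂ, ma a (Function.update (X0 t) i 1) = Q.eval t := by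
    intro t
    rw [hQ, Polynomial.eval_finsetSum]
    unfold ma
    apply Finset.sum_congr rfl
    intro S _
    have : ∏ j ∈ S, Function.update (X0 t) i 1 j = t ^ (S.erase i).card := by
      by_cases hi : i ∈ S
      · rw [← Finset.mul_prod_erase S _ hi, Function.update_self, one_mul,
          Finset.prod_congr rfl (g := fun _ => t), Finset.prod_const]
        intro j hj
        rw [Function.update_of_ne (Finset.ne_of_mem_erase hj), hX0]
      · rw [Finset.erase_eq_of_notMem hi, Finset.prod_congr rfl (g := fun _ => t),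
          Finset.prod_const]
        intro j hj
        rw [Function.update_of_ne (by rintro rfl; exact hi hj), hX0]
    rw [this]
    simp
  have hQ0 : Q ≠ 0 := by
    intro h
    have h1 := hQe 0
    rw [h, Polynomial.eval_zero] at h1
    have h2 : Function.update (X0 0) i 1 = Pi.single i 1 := by
      ext j
      by_cases hj : j = i
      · subst hj; simp
      · rw [Function.update_of_ne hj, hX0]; simp [hj]
    rw [h2, hi i] at h1
    exact mul_ne_zero (neg_ne_zero.mpr hz0) hne h1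
  -- bound for good parameters
  have hgood : ∀ t : ℂ, ‖t‖ < 1 → Q.eval t ≠ 0 → 9 / 4 * ‖f‖ * ‖1 - t‖ ^ s ≤ ‖P.eval t‖ := by
    intro t ht1 hQt
    have hprod : ∀ v : ℂ, ∏ j, (1 - Function.update (X0 t) i v j) = (1 - v) * (1 - t) ^ (s-1) := by
      intro v
      rw [← Finset.mul_prod_erase _ _ (Finset.mem_univ i), Function.update_self,
        Finset.prod_congr rfl (g := fun _ => 1 - t), Finset.prod_const]
      · rw [Finset.card_erase_of_mem (Finset.mem_univ i)]; simp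
      · intro j hj
        rw [Function.update_of_ne (Finset.ne_of_mem_erase hj), hX0]
    have h1t : (1 - t) ≠ 0 := by
      intro h
      rw [← sub_eq_zero.mp h, norm_one] at ht1
      exact lt_irrefl _ ht1
    obtain ⟨b, hb⟩ : ∃ b, b = z * f * (1 - t) ^ (s-1) := ⟨_, rfl⟩
    have hb0 : b ≠ 0 := by rw [hb]; exact mul_ne_zero (mul_ne_zero hz0 hf) (pow_ne_zero _ h1t)
    obtain ⟨m0, hm0⟩ : ∃ m0, m0 = ma a (Function.update (X0 t) i 0) := ⟨_, rfl⟩
    obtain ⟨m1, hm1⟩ : ∃ m1, m1 = ma a (Function.update (X0 t) i 1) := ⟨_, rfl⟩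
    have hup : ∀ v : ℂ, ma a (Function.update (X0 t) i v) = m0 + (m1 - m0) * v := by
      intro v; rw [ma_update, ← hm0, ← hm1]
    have hne1 : m1 ≠ 0 := by rw [hm1, hQe]; exact hQt
    have h := half_disc (m0 + b) (m1 - m0 - b) b t hb0 ht1 (by
      intro x y0 y1 hx hy0 hy1 hcon
      apply hst (Function.update (X0 t) i x) y0 y1 _ hy0 hy1
      · rw [hprod, hup]
        have e : m0 + (m1 - m0) * x + z * f * ((1 - x) * (1 - t) ^ (s-1)) *
          (1 - (1 - y0) * (1 - y1)) = (m0 + b + (m1 - m0 - b) * x) - b * (1 - x) * ((1-y0)*(1-y1)) := by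
          rw [hb]; ring
        rw [e, hcon, sub_self]
      · intro j
        by_cases hj : j = i
        · rw [hj, Function.update_self]; exact hx
        · rw [Function.update_of_ne hj, hX0]
          exact ht1) (by
        have : m0 + b + (m1 - m0 - b) = m1 := by ring
        rw [this]; exact hne1)
    have hut : Function.update (X0 t) i t = fun _ => t := by
      ext j
      by_cases hj : j = i
      · rw [hj]; simp
      · rw [Function.update_of_ne hj, hX0]
    have e1 : m0 + b + (m1 - m0 - b) * t - 7 / 4 * (b * (1 - t)) = P.eval t := by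
      rw [hPe, ← hut, hup]
      have e2 : (1 - t) ^ s = (1 - t) ^ (s - 1) * (1 - t) := by
        rw [← pow_succ]; congr 1; omega
      rw [e2, hb]
      ring
    rw [e1] at h
    refine le_trans (le_of_eq ?_) h
    have e2 : ‖1 - t‖ ^ s = ‖1 - t‖ ^ (s - 1) * ‖1 - t‖ := by
      rw [← pow_succ]; congr 1; omega
    rw [hb, norm_mul, norm_mul, norm_pow, hz, e2]
    ring
  have hlow : ∀ t : ℂ, ‖t‖ < 1 → 9 / 4 * ‖f‖ * ‖1 - t‖ ^ s ≤ ‖P.eval t‖ := by
    intro t ht
    have hfin : {c : ℂ | Q.eval c = 0}.Finite := by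
      refine (Q.roots.toFinset.finite_toSet).subset ?_
      intro c hc
      simp only [Finset.mem_coe, Multiset.mem_toFinset]
      exact (Polynomial.mem_roots hQ0).mpr hc
    have h2 : ({c : ℂ | Q.eval c = 0} \ {t})ᶜ ∈ nhds t := by
      apply ((hfin.subset Set.sdiff_subset).isClosed.isOpen_compl).mem_nhds
      simp
    have h3 : Metric.ball (0:ℂ) 1 ∈ nhds t := Metric.isOpen_ball.mem_nhds (by simpa using ht)
    have hev : ∀ᶠ c in nhdsWithin t {t}ᶜ, 9 / 4 * ‖f‖ * ‖1 - c‖ ^ s ≤ ‖P.eval c‖ := by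
      filter_upwards [nhdsWithin_le_nhds h2, nhdsWithin_le_nhds h3, self_mem_nhdsWithin] with c hc1 hc2 hc3
      apply hgood c (by simpa using hc2)
      intro h4
      exact hc1 ⟨h4, hc3⟩
    have hc1 : Continuous fun c : ℂ => 9 / 4 * ‖f‖ * ‖1 - c‖ ^ s := by fun_prop
    have hc2 : Continuous fun c : ℂ => ‖P.eval c‖ := P.continuous.norm
    exact le_of_tendsto_of_tendsto ((hc1.tendsto t).mono_left nhdsWithin_le_nhds)
      ((hc2.tendsto t).mono_left nhdsWithin_le_nhds) hev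
  have hnU : ‖P.eval 0‖ = ‖z * e0 - (1 - 3 / 4 * z) * f‖ := by rw [hP0, norm_neg]
  have hf0 : 0 < ‖f‖ := norm_pos_iff.mpr hf
  have h1 : 9 / 4 * ‖f‖ ≤ ‖z * e0 - (1 - 3 / 4 * z) * f‖ := by
    have h2 := hlow 0 (by simp)
    rw [hnU] at h2
    simpa using h2
  refine ⟨h1, ?_⟩
  have h2 := schwarz_norm P s (9 / 4 * ‖f‖) (by positivity) hlow
  rw [hnU] at h2
  have hU0 : z * e0 - (1 - 3 / 4 * z) * f ≠ 0 := by
    rw [← norm_pos_iff]
    linarith
  have e3 : P.derivative.eval 0 / P.eval 0 + s = z * (∑ i, ei i) / (z * e0 - (1 - 3 / 4 * z) * f) := by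
    rw [hPr, hP0]
    have h5 : ∀ i, a {i} = -z * ei i - a ∅ := by
      intro i
      rw [← hi i, ma_single]; ring
    simp only [h5, h6]
    rw [Finset.sum_sub_distrib, Finset.sum_const, ← Finset.mul_sum]
    simp only [Finset.card_univ, Fintype.card_fin, nsmul_eq_mul]
    obtain ⟨U, hU⟩ : ∃ U, U = z * e0 - (1 - 3 / 4 * z) * f := ⟨_, rfl⟩
    rw [← hU] at hU0 ⊢
    rw [div_add' _ _ _ (neg_ne_zero.mpr hU0), div_eq_div_iff (neg_ne_zero.mpr hU0) hU0, hU]
    ring
  rw [e3] at h2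
  exact h2

end Pool.Agent.B5.PowR
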