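import Pool.Agent.Lib.MP_b5021c_nt.KO.H89.PowG

/-!
# Board b5, K ODD, PURE BETA, row BE_POW: at one point of the circle, `x_i = om_i t`

`∑ |m_i| ≤ 2 |U| log (|U| / (9/4 |f|))` and `∑ |m_i| ≤ 2 |V| log (|V| / (|1 + z| |f|))`,
`U = D_0 - 3/4 z f`, `V = D_0 - f` (`D_0` the value of `ma a` at zero).
-/

namespace Pool.Agent.B5.PowR

open Complex Polynomial

/-- The Schwarz lemma for `log (q(t) / ∏ (1 - t w))`, with the norm. -/
lemma schwarz_mul (q : ℂ[X]) (o : Multiset ℂ) (ho : ∀ w ∈ o, ‖w‖ ≤ 1) (a : ℝ) (ha : 0 < a)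
    (h : ∀ t : ℂ, ‖t‖ < 1 → a * ‖(o.map fun w => 1 - t * w).prod‖ ≤ ‖q.eval t‖) :
    ‖q.derivative.eval 0 / q.eval 0 + o.sum‖ ≤ 2 * Real.log (‖q.eval 0‖ / a) := by
  have hno : ∀ t : ℂ, ‖t‖ < 1 → (o.map fun w => 1 - t * w).prod ≠ 0 := by
    intro t ht h0
    rw [Multiset.prod_eq_zero_iff, Multiset.mem_map] at h0
    obtain ⟨w, hw, h1⟩ := h0
    have h2 := congrArg norm (sub_eq_zero.mp h1)
    rw [norm_mul, norm_one] at h2
    nlinarith [norm_nonneg t, norm_nonneg w, ho w hw]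
  have h0 : ∀ t : ℂ, ‖t‖ < 1 → q.eval t ≠ 0 := by
    intro t ht h1
    have h2 := h t ht
    rw [h1, norm_zero] at h2
    have h3 : 0 < a * ‖(o.map fun w => 1 - t * w).prod‖ :=
      mul_pos ha (norm_pos_iff.mpr (hno t ht))
    linarith
  have hq0 : q ≠ 0 := by
    intro h1; exact h0 0 (by simp) (by rw [h1]; simp)
  have hsp : q.Splits := IsAlgClosed.splits q
  have hr : ∀ r ∈ q.roots, 1 ≤ ‖r‖ := by
    intro r hr
    by_contra hcon
    push Not at hcon
    exact h0 r hcon (Polynomial.isRoot_of_mem_roots hr)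
  have hr0 : ∀ r ∈ q.roots, r ≠ 0 := by
    intro r h1 h2
    have := hr r h1
    rw [h2, norm_zero] at this
    linarith
  have hq := hsp.eq_prod_roots
  have he : ∀ t : ℂ, q.eval t = q.leadingCoeff * (q.roots.map fun r => t - r).prod := by
    intro t
    conv_lhs => rw [hq]
    rw [Polynomial.eval_mul, Polynomial.eval_C, Polynomial.eval_multiset_prod, Multiset.map_map]
    congr 2
    apply Multiset.map_congr rfl
    intro r _
    simp
  obtain ⟨m, hm⟩ : ∃ m, m = q.roots.map fun r => r⁻¹ := ⟨_, rfl⟩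
  have hm1 : ∀ w ∈ m, ‖w‖ ≤ 1 := by
    intro w hw
    rw [hm, Multiset.mem_map] at hw
    obtain ⟨r, hr1, rfl⟩ := hw
    rw [norm_inv]
    exact inv_le_one_of_one_le₀ (hr r hr1)
  have e1 : ∀ t : ℂ, q.eval t = q.eval 0 * (m.map fun w => 1 - t * w).prod := by
    intro t
    rw [he t, he 0, mul_assoc, hm, Multiset.map_map, ← Multiset.prod_map_mul]
    congr 2
    apply Multiset.map_congr rfl
    intro r hr1
    have := hr0 r hr1
    simp only [Function.comp]
    field_simp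
    ring
  have e2 : q.derivative.eval 0 / q.eval 0 = -m.sum := by
    rw [hsp.eval_derivative_div_eval_of_ne_zero (h0 0 (by simp)), hm,
      ← Multiset.sum_map_neg', Multiset.map_map]
    congr 1
    apply Multiset.map_congr rfl
    intro r _
    simp only [Function.comp, zero_sub, one_div, inv_neg]
  have hP0 : 0 < ‖q.eval 0‖ := norm_pos_iff.mpr (h0 0 (by simp))
  -- the logarithm
  obtain ⟨Lf, hL⟩ : ∃ Lf : ℂ → ℂ, Lf = fun t => (o.map fun w => log (1 - t * w)).sum -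
    (m.map fun w => log (1 - t * w)).sum := ⟨_, rfl⟩
  have hder : ∀ t : ℂ, ‖t‖ < 1 → HasDerivAt Lf ((o.map fun w => -w / (1 - t * w)).sum -
      (m.map fun w => -w / (1 - t * w)).sum) t := by
    intro t ht
    rw [hL]
    exact (hasDerivAt_sumlog o ho t ht).sub (hasDerivAt_sumlog m hm1 t ht)
  have hre : ∀ t : ℂ, ‖t‖ < 1 → (Lf t).re ≤ Real.log (‖q.eval 0‖ / a) := by
    intro t ht
    rw [hL]
    simp only
    rw [Complex.sub_re, re_sumlog m hm1 t ht, re_sumlog o ho t ht]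
    have h3 := h t ht
    have h1t : 0 < ‖(o.map fun w => 1 - t * w).prod‖ := norm_pos_iff.mpr (hno t ht)
    have hpm : 0 < ‖(m.map fun w => 1 - t * w).prod‖ := by
      rw [norm_pos_iff]
      intro h4
      exact h0 t ht (by rw [e1 t, h4, mul_zero])
    rw [e1 t, norm_mul] at h3
    have h4 := Real.log_le_log (by positivity) h3
    rw [Real.log_mul ha.ne' h1t.ne', Real.log_mul hP0.ne' hpm.ne'] at h4
    rw [Real.log_div hP0.ne' ha.ne']
    linarith
  have hL0 : Lf 0 = 0 := by rw [hL]; simp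
  have hM0 : 0 ≤ Real.log (‖q.eval 0‖ / a) := by
    have := hre 0 (by simp)
    rwa [hL0, Complex.zero_re] at this
  have hd0 := hder 0 (by simp)
  have hs0 : ∀ n : Multiset ℂ, (n.map fun w => -w / (1 - 0 * w)).sum = -n.sum := by
    intro n
    rw [← Multiset.sum_map_neg']
    congr 1
    apply Multiset.map_congr rfl
    intro w _; simp
  have hval : ((o.map fun w => -w / (1 - 0 * w)).sum - (m.map fun w => -w / (1 - 0 * w)).sum) =
      -(q.derivative.eval 0 / q.eval 0 + o.sum) := by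
    rw [e2, hs0, hs0]; ring
  rw [hval] at hd0
  -- Borel-Caratheodory
  have hbc : ∀ e : ℝ, 0 < e → ‖q.derivative.eval 0 / q.eval 0 + o.sum‖ ≤
      2 * (Real.log (‖q.eval 0‖ / a) + e) := by
    intro e he
    have hM : 0 < Real.log (‖q.eval 0‖ / a) + e := by linarith
    have hb : ∀ t : ℂ, t ∈ Metric.ball (0:ℂ) 1 → ‖Lf t‖ ≤ 2 * (Real.log (‖q.eval 0‖ / a) + e) * ‖t‖ / (1 - ‖t‖) := by
      intro t ht
      apply Complex.borelCaratheodory_zero hM (f := Lf) (R := 1) _ _ one_pos ht hL0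
      · intro x hx
        exact (hder x (mem_ball_zero_iff.mp hx)).differentiableAt.differentiableWithinAt
      · intro x hx
        have := hre x (mem_ball_zero_iff.mp hx)
        show (Lf x).re ≤ _
        linarith
    have hslope := hd0.tendsto_slope_zero.norm
    rw [norm_neg] at hslope
    have hc : Filter.Tendsto (fun t : ℂ => 2 * (Real.log (‖q.eval 0‖ / a) + e) / (1 - ‖t‖))
        (nhdsWithin 0 {0}ᶜ) (nhds (2 * (Real.log (‖q.eval 0‖ / a) + e) / (1 - ‖(0:ℂ)‖))) := by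
      apply Filter.Tendsto.mono_left _ nhdsWithin_le_nhds
      apply ContinuousAt.tendsto
      apply ContinuousAt.div continuousAt_const (by fun_prop)
      simp
    have hle := le_of_tendsto_of_tendsto hslope hc (by
      have h5 : Metric.ball (0:ℂ) 1 ∈ nhdsWithin (0:ℂ) {0}ᶜ := nhdsWithin_le_nhds (Metric.ball_mem_nhds 0 one_pos)
      filter_upwards [h5, self_mem_nhdsWithin] with t ht1 ht2
      have ht3 : 0 < ‖t‖ := norm_pos_iff.mpr ht2
      have ht4 : 0 < 1 - ‖t‖ := by linarith [mem_ball_zero_iff.mp ht1]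
      have h6 := hb t ht1
      rw [zero_add, hL0, sub_zero, norm_smul, norm_inv, le_div_iff₀ ht4]
      rw [le_div_iff₀ ht4] at h6
      have h7 : ‖t‖⁻¹ * ‖Lf t‖ * (1 - ‖t‖) = ‖t‖⁻¹ * (‖Lf t‖ * (1 - ‖t‖)) := by ring
      rw [h7]
      calc ‖t‖⁻¹ * (‖Lf t‖ * (1 - ‖t‖)) ≤ ‖t‖⁻¹ * (2 * (Real.log (‖q.eval 0‖ / a) + e) * ‖t‖) :=
            mul_le_mul_of_nonneg_left h6 (inv_nonneg.mpr ht3.le)
        _ = 2 * (Real.log (‖q.eval 0‖ / a) + e) := by field_simp)
    simpa using hle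
  apply le_of_forall_pos_le_add
  intro e he
  have := hbc (e/2) (by linarith)
  linarith

section

variable {s : ℕ}

lemma prod_om (om : Fin s → ℂ) (t : ℂ) :
    ((Finset.univ.val.map om).map fun w => 1 - t * w).prod = ∏ i, (1 - om i * t) := by
  rw [Multiset.map_map]
  apply Finset.prod_congr rfl
  intro i _
  simp [mul_comm]

/-- The rotated coefficients. -/
noncomputable def rt (a : Finset (Fin s) → ℂ) (om : Fin s → ℂ) : Finset (Fin s) → ℂ :=
  fun S => a S * ∏ i ∈ S, om i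

lemma rt_eval (a : Finset (Fin s) → ℂ) (om : Fin s → ℂ) (t : ℂ) :
    (dg (rt a om)).eval t = ma a (fun i => om i * t) := by
  rw [dg_eval]
  unfold ma rt
  apply Finset.sum_congr rfl
  intro S _
  rw [Finset.prod_mul_distrib, mul_assoc]

/-- `∏ (1 - om_i t)` as a polynomial. -/
noncomputable def pom (om : Fin s → ℂ) : ℂ[X] := ∏ i, (1 - C (om i) * X)

lemma pom_eval (om : Fin s → ℂ) (t : ℂ) : (pom om).eval t = ∏ i, (1 - om i * t) := by
  unfold pom
  rw [Polynomial.eval_prod]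
  apply Finset.prod_congr rfl
  intro i _
  simp

lemma pom_der (om : Fin s → ℂ) : (pom om).derivative.eval 0 = -∑ i, om i := by
  classical
  unfold pom
  rw [Polynomial.derivative_prod_finset, Polynomial.eval_finsetSum, ← Finset.sum_neg_distrib]
  apply Finset.sum_congr rfl
  intro i _
  rw [Polynomial.eval_mul, Polynomial.eval_prod]
  simp

/-- The value and the derivative of `ma a (om t) - c ∏ (1 - om_i t)` at zero. -/
lemma rt_der (a : Finset (Fin s) → ℂ) (om : Fin s → ℂ) (c : ℂ) (h : ma a 0 - c ≠ 0) {P : ℂ[X]}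
    (hP : P = dg (rt a om) - C c * pom om) :
    P.derivative.eval 0 / P.eval 0 +
      (Finset.univ.val.map om).sum = (∑ i, om i * ma a (Pi.single i 1)) / (ma a 0 - c) := by
  have h1 : (dg (rt a om) - C c * pom om).eval 0 = ma a 0 - c := by
    rw [Polynomial.eval_sub, rt_eval, Polynomial.eval_mul, Polynomial.eval_C, pom_eval]
    simp only [mul_zero, sub_zero, Finset.prod_const_one, mul_one]
    rfl
  have h2 : (dg (rt a om) - C c * pom om).derivative.eval 0 =
      ∑ i, a {i} * om i + c * ∑ i, om i := by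
    rw [Polynomial.derivative_sub, Polynomial.eval_sub, dg_der, Polynomial.derivative_C_mul,
      Polynomial.eval_mul, Polynomial.eval_C, pom_der]
    simp only [rt, Finset.prod_singleton]
    ring
  have h3 : (Finset.univ.val.map om).sum = ∑ i, om i := rfl
  rw [hP, h1, h2, h3, div_add' _ _ _ h]
  congr 1
  simp only [ma_single, ma_zero]
  rw [Finset.mul_sum, mul_comm (∑ i, om i), Finset.mul_sum, ← Finset.sum_add_distrib,
    ← Finset.sum_add_distrib]
  apply Finset.sum_congr rfl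
  intro i _
  ring

/-- At one point of the circle, with the disc `|R - 7/4| < 9/4`, `x_i = om_i t`. -/
theorem pt_u (a : Finset (Fin s) → ℂ) (f z : ℂ) (om : Fin s → ℂ) (hom : ∀ i, ‖om i‖ = 1)
    (hz : ‖z‖ = 1)
    (hst : ∀ (x : Fin s → ℂ) (y0 y1 : ℂ), (∀ i, ‖x i‖ < 1) → ‖y0‖ < 1 → ‖y1‖ < 1 →
      ma a x + z * f * (∏ i, (1 - x i)) * (1 - (1 - y0) * (1 - y1)) ≠ 0)
    (hf : f ≠ 0) (i : Fin s) (hne : ma a (Pi.single i 1) ≠ 0) :
    9 / 4 * ‖f‖ ≤ ‖ma a 0 - 3 / 4 * z * f‖ ∧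
    ‖∑ i, om i * ma a (Pi.single i 1)‖ ≤ 2 * ‖ma a 0 - 3 / 4 * z * f‖ *
      Real.log (‖ma a 0 - 3 / 4 * z * f‖ / (9 / 4 * ‖f‖)) := by
  classical
  have hz0 : z ≠ 0 := by intro h; rw [h, norm_zero] at hz; exact one_ne_zero hz.symm
  obtain ⟨P, hP⟩ : ∃ P : ℂ[X], P = dg (rt a om) - C (3 / 4 * z * f) * pom om := ⟨_, rfl⟩
  have hPe : ∀ t : ℂ, P.eval t = ma a (fun i => om i * t) - 3 / 4 * z * f * ∏ i, (1 - om i * t) := by
    intro t
    rw [hP, Polynomial.eval_sub, rt_eval, Polynomial.eval_mul, Polynomial.eval_C, pom_eval]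
  have hP0 : P.eval 0 = ma a 0 - 3 / 4 * z * f := by
    rw [hPe]
    simp only [mul_zero, sub_zero, Finset.prod_const_one, mul_one]
    rfl
  have hot : ∀ (t : ℂ) (j : Fin s), ‖t‖ < 1 → ‖om j * t‖ < 1 := fun t j h => by
    rw [norm_mul, hom, one_mul]; exact h
  have hne1 : ∀ (t : ℂ) (j : Fin s), ‖t‖ < 1 → 1 - om j * t ≠ 0 := by
    intro t j ht h
    have h1 := hot t j ht
    rw [← sub_eq_zero.mp h, norm_one] at h1
    exact lt_irrefl _ h1
  -- the polynomial `ma a` on `x_i = 1`, the other variables `om_j t`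
  obtain ⟨X0, hX0⟩ : ∃ X0 : ℂ → Fin s → ℂ, X0 = fun (t : ℂ) (j : Fin s) => om j * t := ⟨_, rfl⟩
  obtain ⟨Q, hQ⟩ : ∃ Q : ℂ[X], Q = ∑ S : Finset (Fin s), C (a S * ∏ j ∈ S.erase i, om j) *
    X ^ (S.erase i).card := ⟨_, rfl⟩
  have hQe : ∀ t : ℂ, ma a (Function.update (X0 t) i 1) = Q.eval t := by
    intro t
    rw [hQ, Polynomial.eval_finsetSum]
    unfold ma
    apply Finset.sum_congr rfl
    intro S _
    have : ∏ j ∈ S, Function.update (X0 t) i 1 j = (∏ j ∈ S.erase i, om j) * t ^ (S.erase i).card := by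
      have h2 : ∏ j ∈ S, Function.update (X0 t) i 1 j = ∏ j ∈ S.erase i, (om j * t) := by
        by_cases hi : i ∈ S
        · rw [← Finset.mul_prod_erase S _ hi, Function.update_self, one_mul]
          apply Finset.prod_congr rfl
          intro j hj
          rw [Function.update_of_ne (Finset.ne_of_mem_erase hj), hX0]
        · rw [Finset.erase_eq_of_notMem hi]
          apply Finset.prod_congr rfl
          intro j hj
          rw [Function.update_of_ne (by rintro rfl; exact hi hj), hX0]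
      rw [h2, Finset.prod_mul_distrib, Finset.prod_const]
    rw [this, Polynomial.eval_mul, Polynomial.eval_C, Polynomial.eval_pow, Polynomial.eval_X,
      mul_assoc]
  have hQ0 : Q ≠ 0 := by
    intro h
    have h1 := hQe 0
    rw [h, Polynomial.eval_zero] at h1
    have h2 : Function.update (X0 0) i 1 = Pi.single i 1 := by
      ext j
      by_cases hj : j = i
      · subst hj; simp
      · rw [Function.update_of_ne hj, hX0]; simp [hj]
    rw [h2] at h1
    exact hne h1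
  -- bound for good parameters
  have hgood : ∀ t : ℂ, ‖t‖ < 1 → Q.eval t ≠ 0 →
      9 / 4 * ‖f‖ * ‖∏ j, (1 - om j * t)‖ ≤ ‖P.eval t‖ := by
    intro t ht1 hQt
    have hprod : ∀ v : ℂ, ∏ j, (1 - Function.update (X0 t) i v j) =
        (1 - v) * ∏ j ∈ Finset.univ.erase i, (1 - om j * t) := by
      intro v
      rw [← Finset.mul_prod_erase _ _ (Finset.mem_univ i), Function.update_self]
      congr 1
      apply Finset.prod_congr rfl
      intro j hj
      rw [Function.update_of_ne (Finset.ne_of_mem_erase hj), hX0]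
    obtain ⟨b, hb⟩ : ∃ b, b = z * f * ∏ j ∈ Finset.univ.erase i, (1 - om j * t) := ⟨_, rfl⟩
    have hb0 : b ≠ 0 := by
      rw [hb]
      exact mul_ne_zero (mul_ne_zero hz0 hf) (Finset.prod_ne_zero_iff.mpr fun j _ => hne1 t j ht1)
    obtain ⟨m0, hm0⟩ : ∃ m0, m0 = ma a (Function.update (X0 t) i 0) := ⟨_, rfl⟩
    obtain ⟨m1, hm1⟩ : ∃ m1, m1 = ma a (Function.update (X0 t) i 1) := ⟨_, rfl⟩
    have hup : ∀ v : ℂ, ma a (Function.update (X0 t) i v) = m0 + (m1 - m0) * v := by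
      intro v; rw [ma_update, ← hm0, ← hm1]
    have hne1' : m1 ≠ 0 := by rw [hm1, hQe]; exact hQt
    have h := half_disc (m0 + b) (m1 - m0 - b) b (om i * t) hb0 (hot t i ht1) (by
      intro x y0 y1 hx hy0 hy1 hcon
      apply hst (Function.update (X0 t) i x) y0 y1 _ hy0 hy1
      · rw [hprod, hup]
        have e : m0 + (m1 - m0) * x + z * f * ((1 - x) *
            ∏ j ∈ Finset.univ.erase i, (1 - om j * t)) * (1 - (1 - y0) * (1 - y1)) =
            (m0 + b + (m1 - m0 - b) * x) - b * (1 - x) * ((1-y0)*(1-y1)) := by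
          rw [hb]; ring
        rw [e, hcon, sub_self]
      · intro j
        by_cases hj : j = i
        · rw [hj, Function.update_self]; exact hx
        · rw [Function.update_of_ne hj, hX0]
          exact hot t j ht1) (by
        have : m0 + b + (m1 - m0 - b) = m1 := by ring
        rw [this]; exact hne1')
    have hut : Function.update (X0 t) i (om i * t) = fun j => om j * t := by
      ext j
      by_cases hj : j = i
      · rw [hj]; simp
      · rw [Function.update_of_ne hj, hX0]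
    have hpe : ∏ j, (1 - om j * t) = (1 - om i * t) * ∏ j ∈ Finset.univ.erase i, (1 - om j * t) :=
      (Finset.mul_prod_erase _ _ (Finset.mem_univ i)).symm
    have e1 : m0 + b + (m1 - m0 - b) * (om i * t) - 7 / 4 * (b * (1 - om i * t)) = P.eval t := by
      rw [hPe, ← hut, hup, hpe, hb]
      ring
    rw [e1] at h
    refine le_trans (le_of_eq ?_) h
    rw [hb, hpe, norm_mul, norm_mul, norm_mul, hz]
    ring
  have hlow : ∀ t : ℂ, ‖t‖ < 1 → 9 / 4 * ‖f‖ * ‖∏ j, (1 - om j * t)‖ ≤ ‖P.eval t‖ := by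
    intro t ht
    have hfin : {c : ℂ | Q.eval c = 0}.Finite := by
      refine (Q.roots.toFinset.finite_toSet).subset ?_
      intro c hc
      simp only [Finset.mem_coe, Multiset.mem_toFinset]
      exact (Polynomial.mem_roots hQ0).mpr hc
    have h2 : ({c : ℂ | Q.eval c = 0} \ {t})ᶜ ∈ nhds t := by
      apply ((hfin.subset Set.sdiff_subset).isClosed.isOpen_compl).mem_nhds
      simp
    have h3 : Metric.ball (0:ℂ) 1 ∈ nhds t := Metric.isOpen_ball.mem_nhds (by simpa using ht)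
    have hev : ∀ᶠ c in nhdsWithin t {t}ᶜ, 9 / 4 * ‖f‖ * ‖∏ j, (1 - om j * c)‖ ≤ ‖P.eval c‖ := by
      filter_upwards [nhdsWithin_le_nhds h2, nhdsWithin_le_nhds h3, self_mem_nhdsWithin] with c hc1 hc2 hc3
      apply hgood c (by simpa using hc2)
      intro h4
      exact hc1 ⟨h4, hc3⟩
    have hc1 : Continuous fun c : ℂ => 9 / 4 * ‖f‖ * ‖∏ j, (1 - om j * c)‖ := by fun_prop
    have hc2 : Continuous fun c : ℂ => ‖P.eval c‖ := P.continuous.norm
    exact le_of_tendsto_of_tendsto ((hc1.tendsto t).mono_left nhdsWithin_le_nhds)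
      ((hc2.tendsto t).mono_left nhdsWithin_le_nhds) hev
  have hf0 : 0 < ‖f‖ := norm_pos_iff.mpr hf
  have h1 : 9 / 4 * ‖f‖ ≤ ‖ma a 0 - 3 / 4 * z * f‖ := by
    have h2 := hlow 0 (by simp)
    rw [hP0] at h2
    simpa using h2
  refine ⟨h1, ?_⟩
  have hU0 : ma a 0 - 3 / 4 * z * f ≠ 0 := by
    rw [← norm_pos_iff]
    linarith
  have h2 := schwarz_mul P (Finset.univ.val.map om) (by
    intro w hw
    rw [Multiset.mem_map] at hw
    obtain ⟨j, -, rfl⟩ := hw
    exact (hom j).le) (9 / 4 * ‖f‖) (by positivity) (fun t ht => by rw [prod_om]; exact hlow t ht)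
  rw [rt_der a om _ hU0 hP, hP0, norm_div, div_le_iff₀ (norm_pos_iff.mpr hU0)] at h2
  linarith

/-- At one point of the circle, with the disc `|R - 1 - 1/z| < |1 + z|`, `x_i = om_i t`. -/
theorem pt_v (a : Finset (Fin s) → ℂ) (f z : ℂ) (om : Fin s → ℂ) (hom : ∀ i, ‖om i‖ = 1)
    (hz : ‖z‖ = 1)
    (hst : ∀ (x : Fin s → ℂ) (y0 y1 : ℂ), (∀ i, ‖x i‖ < 1) → ‖y0‖ < 1 → ‖y1‖ < 1 →
      ma a x + z * f * (∏ i, (1 - x i)) * (1 - (1 - y0) * (1 - y1)) ≠ 0)
    (hza : (1 + z) * f ≠ 0) :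
    ‖∑ i, om i * ma a (Pi.single i 1)‖ ≤ 2 * ‖ma a 0 - f‖ *
      Real.log (‖ma a 0 - f‖ / ‖(1 + z) * f‖) := by
  have hz0 : z ≠ 0 := by intro h; rw [h, norm_zero] at hz; exact one_ne_zero hz.symm
  have hpos : 0 < ‖(1 + z) * f‖ := norm_pos_iff.mpr hza
  obtain ⟨P, hP⟩ : ∃ P : ℂ[X], P = dg (rt a om) - C f * pom om := ⟨_, rfl⟩
  have hPe : ∀ t : ℂ, P.eval t = ma a (fun i => om i * t) - f * ∏ i, (1 - om i * t) := by
    intro t
    rw [hP, Polynomial.eval_sub, rt_eval, Polynomial.eval_mul, Polynomial.eval_C, pom_eval]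
  have hP0 : P.eval 0 = ma a 0 - f := by
    rw [hPe]
    simp only [mul_zero, sub_zero, Finset.prod_const_one, mul_one]
    rfl
  have hot : ∀ (t : ℂ) (j : Fin s), ‖t‖ < 1 → ‖om j * t‖ < 1 := fun t j h => by
    rw [norm_mul, hom, one_mul]; exact h
  have hlow : ∀ t : ℂ, ‖t‖ < 1 → ‖(1 + z) * f‖ * ‖∏ j, (1 - om j * t)‖ ≤ ‖P.eval t‖ := by
    intro t ht
    rw [hPe]
    obtain ⟨p, hp⟩ : ∃ p, p = ∏ j, (1 - om j * t) := ⟨_, rfl⟩
    -- for every y in the open disc and every r < 1: no zero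
    have h1 : ∀ r : ℝ, 0 ≤ r → r < 1 → ∀ y : ℂ, ‖y‖ < 1 →
        (ma a (fun i => om i * t) - r * f * p) + (z + r) * f * p * y ≠ 0 := by
      intro r hr0 hr1 y hy h2
      apply hst (fun i => om i * t) (-r * z⁻¹) y (fun j => hot t j ht) (by
        rw [norm_mul, norm_neg, norm_inv, hz, Complex.norm_real, Real.norm_of_nonneg hr0]
        simpa using hr1) hy
      refine Eq.trans ?_ h2
      rw [← hp]
      generalize ma a (fun i => om i * t) = A
      have h5 : z * z⁻¹ = 1 := mul_inv_cancel₀ hz0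
      linear_combination (-(r * f * p) * (1 - y)) * h5
    have h2 : ∀ r : ℝ, 0 ≤ r → r < 1 → ‖(z + r) * f * p‖ ≤
        ‖ma a (fun i => om i * t) - r * f * p‖ := by
      intro r hr0 hr1
      by_contra hcon
      push Not at hcon
      have hB : (z + r) * f * p ≠ 0 := by
        intro h3
        rw [h3, norm_zero] at hcon
        exact absurd hcon (not_lt.mpr (norm_nonneg _))
      apply h1 r hr0 hr1 (-(ma a (fun i => om i * t) - r * f * p) / ((z + r) * f * p))
      · rw [norm_div, norm_neg, div_lt_one (norm_pos_iff.mpr hB)]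
        exact hcon
      · rw [mul_div_assoc', mul_div_cancel_left₀ _ hB]
        ring
    have hc1 : Continuous fun r : ℝ => ‖(z + r) * f * p‖ := by fun_prop
    have hc2 : Continuous fun r : ℝ => ‖ma a (fun i => om i * t) - r * f * p‖ := by fun_prop
    have h3 := le_of_tendsto_of_tendsto ((hc1.tendsto 1).mono_left (nhdsWithin_le_nhds (s := Set.Iio 1)))
      ((hc2.tendsto 1).mono_left (nhdsWithin_le_nhds (s := Set.Iio 1))) (by
        have h4 : Set.Ioo (0:ℝ) 1 ∈ nhdsWithin (1:ℝ) (Set.Iio 1) := Ioo_mem_nhdsLT (by norm_num)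
        filter_upwards [h4] with r hr
        exact h2 r hr.1.le hr.2)
    have e1 : ‖(z + ((1:ℝ):ℂ)) * f * p‖ = ‖(1 + z) * f‖ * ‖p‖ := by
      rw [norm_mul]
      congr 2
      push_cast
      ring
    rw [e1] at h3
    rw [← hp]
    simpa using h3
  have hV0 : ma a 0 - f ≠ 0 := by
    have h1 := hlow 0 (by simp)
    rw [hP0] at h1
    simp only [mul_zero, sub_zero, Finset.prod_const_one, norm_one, mul_one] at h1
    rw [← norm_pos_iff]
    linarith
  have h2 := schwarz_mul P (Finset.univ.val.map om) (by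
    intro w hw
    rw [Multiset.mem_map] at hw
    obtain ⟨j, -, rfl⟩ := hw
    exact (hom j).le) ‖(1 + z) * f‖ hpos (fun t ht => by rw [prod_om]; exact hlow t ht)
  rw [rt_der a om _ hV0 hP, hP0, norm_div, div_le_iff₀ (norm_pos_iff.mpr hV0)] at h2
  linarith

/-- The phases. -/
lemma ex_om (m : Fin s → ℂ) : ∃ om : Fin s → ℂ, (∀ i, ‖om i‖ = 1) ∧
    ∑ i, om i * m i = ((∑ i, ‖m i‖ : ℝ) : ℂ) := by
  classical
  refine ⟨fun i => if m i = 0 then 1 else (starRingEnd ℂ) (m i) / ‖m i‖, fun i => ?_, ?_⟩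
  · by_cases h : m i = 0
    · simp [h]
    · simp only [h, if_false]
      rw [norm_div, Complex.norm_conj, Complex.norm_real, norm_norm, div_self]
      exact (norm_pos_iff.mpr h).ne'
  · push_cast
    apply Finset.sum_congr rfl
    intro i _
    by_cases h : m i = 0
    · simp [h]
    · simp only [h, if_false]
      have h1 : (‖m i‖ : ℂ) ≠ 0 := by exact_mod_cast (norm_pos_iff.mpr h).ne'
      rw [div_mul_eq_mul_div, ← Complex.normSq_eq_conj_mul_self, Complex.normSq_eq_norm_sq,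
        div_eq_iff h1]
      push_cast
      ring

/-- `∑ |m_i| ≤ 2 |U| log (|U| / (9/4 |f|))`. -/
theorem sum_u (a : Finset (Fin s) → ℂ) (f z : ℂ) (hz : ‖z‖ = 1)
    (hst : ∀ (x : Fin s → ℂ) (y0 y1 : ℂ), (∀ i, ‖x i‖ < 1) → ‖y0‖ < 1 → ‖y1‖ < 1 →
      ma a x + z * f * (∏ i, (1 - x i)) * (1 - (1 - y0) * (1 - y1)) ≠ 0)
    (hf : f ≠ 0) (i : Fin s) (hne : ma a (Pi.single i 1) ≠ 0) :
    9 / 4 * ‖f‖ ≤ ‖ma a 0 - 3 / 4 * z * f‖ ∧
    ∑ i, ‖ma a (Pi.single i 1)‖ ≤ 2 * ‖ma a 0 - 3 / 4 * z * f‖ *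
      Real.log (‖ma a 0 - 3 / 4 * z * f‖ / (9 / 4 * ‖f‖)) := by
  obtain ⟨om, h1, h2⟩ := ex_om fun i => ma a (Pi.single i 1)
  have h3 := pt_u a f z om h1 hz hst hf i hne
  rw [h2, Complex.norm_real, Real.norm_of_nonneg (Finset.sum_nonneg fun i _ => norm_nonneg _)] at h3
  exact h3

/-- `∑ |m_i| ≤ 2 |V| log (|V| / |(1 + z) f|)`. -/
theorem sum_v (a : Finset (Fin s) → ℂ) (f z : ℂ) (hz : ‖z‖ = 1)
    (hst : ∀ (x : Fin s → ℂ) (y0 y1 : ℂ), (∀ i, ‖x i‖ < 1) → ‖y0‖ < 1 → ‖y1‖ < 1 →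
      ma a x + z * f * (∏ i, (1 - x i)) * (1 - (1 - y0) * (1 - y1)) ≠ 0)
    (hza : (1 + z) * f ≠ 0) :
    ∑ i, ‖ma a (Pi.single i 1)‖ ≤ 2 * ‖ma a 0 - f‖ *
      Real.log (‖ma a 0 - f‖ / ‖(1 + z) * f‖) := by
  obtain ⟨om, h1, h2⟩ := ex_om fun i => ma a (Pi.single i 1)
  have h3 := pt_v a f z om h1 hz hst hza
  rw [h2, Complex.norm_real, Real.norm_of_nonneg (Finset.sum_nonneg fun i _ => norm_nonneg _)] at h3
  exact h3

end

end Pool.Agent.B5.PowR
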