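import Mathlib

/-!
# Board b5, K ODD, PURE BETA, row POW'' part C: the numbers, `2 ≤ N ≤ 6`
-/

namespace Pool.Agent.B5.PowR

/-- (A') excludes `ζ ≥ z0`. -/
lemma pw_exp {ze z0 K S : ℝ} (h0 : 0 < z0) (hK : 0 ≤ K) (hS : 2 * K ≤ S)
    (hA : S * ze ≤ 2 * Real.log (4 / (9 * ze))) (he : 4 / (9 * z0) < Real.exp (K * z0)) :
    ze < z0 := by
  by_contra hcon
  push Not at hcon
  have h1 : 0 < ze := h0.trans_le hcon
  have h2 : Real.log (4 / (9 * ze)) ≤ Real.log (4 / (9 * z0)) := by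
    apply Real.log_le_log (by positivity)
    apply div_le_div_of_nonneg_left (by norm_num) (by positivity)
    linarith
  have h3 : Real.log (4 / (9 * z0)) < K * z0 := by
    rw [Real.log_lt_iff_lt_exp (by positivity)]
    exact he
  have h4 : 2 * K * z0 ≤ S * ze := by
    calc 2 * K * z0 ≤ S * z0 := mul_le_mul_of_nonneg_right hS h0.le
      _ ≤ S * ze := mul_le_mul_of_nonneg_left hcon (by linarith)
  linarith

/-- (B2) excludes `ζ < x` when `F(ζ) ≥ 0`. -/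
lemma pw_sp {ze x b1 D0 be : ℝ} (h0 : 0 < ze) (hx0 : 0 < x) (hx1 : x < 1)
    (hB0 : 9 / 4 * ze < 1) (hD : D0 = 1 - (9 / 4 * ze) ^ 2) (hB1 : |b1| ≤ D0)
    (hb1 : 3 * (x - ze) < be * x * (1 - ze * x))
    (hb2 : be * ((D0 + x * b1) + 9 / 4 * ze * x * (b1 + x * D0)) ≤
      9 / 4 * ze * (D0 + x * b1) + x * (b1 + x * D0))
    (hF : 0 ≤ 3 * (x - ze) * ((D0 + x * b1) + 9 / 4 * ze * x * (b1 + x * D0)) -
      x * (1 - ze * x) * (9 / 4 * ze * (D0 + x * b1) + x * (b1 + x * D0))) : False := by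
  have hD0 : 0 < D0 := by rw [hD]; nlinarith
  have h1 := (abs_le.mp hB1).1
  obtain ⟨Den, hDen⟩ : ∃ Den, Den = (D0 + x * b1) + 9 / 4 * ze * x * (b1 + x * D0) := ⟨_, rfl⟩
  obtain ⟨Num, hNum⟩ : ∃ Num, Num = 9 / 4 * ze * (D0 + x * b1) + x * (b1 + x * D0) := ⟨_, rfl⟩
  have hpos : 0 < Den := by
    have e1 : D0 * (1 - x) ≤ D0 + x * b1 := by nlinarith
    have e2 : -(9 / 4 * ze * x * (D0 * (1 - x))) ≤ 9 / 4 * ze * x * (b1 + x * D0) := by
      have : 0 ≤ 9 / 4 * ze * x := by positivity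
      nlinarith
    have e3 : 0 < D0 * (1 - x) * (1 - 9 / 4 * ze * x) := by
      apply mul_pos (mul_pos hD0 (by linarith))
      nlinarith
    rw [hDen]
    nlinarith
  rw [← hDen, ← hNum] at hF hb2
  have hze1 : ze < 1 := by linarith
  have h2 : 0 < x * (1 - ze * x) := mul_pos hx0 (by nlinarith)
  have h3 : 3 * (x - ze) * Den < be * x * (1 - ze * x) * Den := mul_lt_mul_of_pos_right hb1 hpos
  have h4 : x * (1 - ze * x) * (be * Den) ≤ x * (1 - ze * x) * Num :=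
    mul_le_mul_of_nonneg_left hb2 h2.le
  nlinarith

/-- PART C: the numbers. `S = ∑ n_i ≥ 4 N - 4`, `2 ≤ N ≤ 6`. -/
theorem pw_num {N : ℕ} (hN : 2 ≤ N) (hN6 : N ≤ 6) {ze S : ℝ} (h0 : 0 < ze)
    (hS : 4 * (N:ℝ) - 4 ≤ S) (hA : S * ze ≤ 2 * Real.log (4 / (9 * ze)))
    {b1 D0 x : ℝ} (hx : x = 1 / ((N:ℝ) + 1)) (hD : D0 = 1 - (9 / 4 * ze) ^ 2)
    (hb : b1 = 9 / 4 * (((N:ℝ) + 7 / 4) * ze + ze ^ 2 - 1))
    (hB : 0 < D0 → |b1| ≤ D0 ∧ (ze < x → ∃ be : ℝ, 3 * (x - ze) < be * x * (1 - ze * x) ∧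
      be * ((D0 + x * b1) + 9 / 4 * ze * x * (b1 + x * D0)) ≤
      9 / 4 * ze * (D0 + x * b1) + x * (b1 + x * D0))) : False := by
  have key : ∀ z0 K : ℝ, 0 < z0 → 0 ≤ K → 2 * K = 4 * (N:ℝ) - 4 →
      4 / (9 * z0) < Real.exp (K * z0) → z0 ≤ x → 9 / 4 * z0 < 1 → (ze < z0 →
      0 ≤ 3 * (x - ze) * ((D0 + x * b1) + 9 / 4 * ze * x * (b1 + x * D0)) -
      x * (1 - ze * x) * (9 / 4 * ze * (D0 + x * b1) + x * (b1 + x * D0))) → False := by
    intro z0 K hz0 hK hKS he hz0x hz01 hF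
    have h1 := pw_exp hz0 hK (by linarith) hA he
    have hD0 : 0 < D0 := by rw [hD]; nlinarith
    obtain ⟨hB1, hB2⟩ := hB hD0
    obtain ⟨be, hb1, hb2⟩ := hB2 (h1.trans_le hz0x)
    have hN0 : (0:ℝ) < (N:ℝ) := by
      have : (2:ℝ) ≤ N := by exact_mod_cast hN
      linarith
    have hx0 : 0 < x := by rw [hx]; positivity
    have hx1 : x < 1 := by
      rw [hx, div_lt_one (by positivity)]; linarith
    exact pw_sp h0 hx0 hx1 (by linarith) hD hB1 hb1 hb2 (hF h1)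
  have hp : ∀ z0 : ℝ, ze < z0 → ze ^ 2 ≤ z0 ^ 2 ∧ ze ^ 3 ≤ z0 ^ 3 ∧ ze ^ 4 ≤ z0 ^ 4 := fun z0 h =>
    ⟨pow_le_pow_left₀ h0.le h.le 2, pow_le_pow_left₀ h0.le h.le 3, pow_le_pow_left₀ h0.le h.le 4⟩
  interval_cases N
  · apply key (263 / 1000) 2 (by norm_num) (by norm_num) (by norm_num) _ (by rw [hx]; norm_num)
      (by norm_num)
    · intro h
      obtain ⟨p2, p3, p4⟩ := hp _ h
      rw [hD, hb, hx]
      norm_num at p2 p3 p4 ⊢
      ring_nf
      linarith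
    · have h1 := Real.sum_le_exp_of_nonneg (by norm_num : (0:ℝ) ≤ 2 * (263 / 1000)) 6
      simp only [Finset.sum_range_succ, Finset.sum_range_zero, Nat.factorial] at h1
      norm_num at h1 ⊢
      linarith
  · apply key (205 / 1000) 4 (by norm_num) (by norm_num) (by norm_num) _ (by rw [hx]; norm_num)
      (by norm_num)
    · intro h
      obtain ⟨p2, p3, p4⟩ := hp _ h
      rw [hD, hb, hx]
      norm_num at p2 p3 p4 ⊢
      ring_nf
      linarith
    · have h1 := Real.sum_le_exp_of_nonneg (by norm_num : (0:ℝ) ≤ 4 * (205 / 1000)) 6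
      simp only [Finset.sum_range_succ, Finset.sum_range_zero, Nat.factorial] at h1
      norm_num at h1 ⊢
      linarith
  · apply key (17 / 100) 6 (by norm_num) (by norm_num) (by norm_num) _ (by rw [hx]; norm_num)
      (by norm_num)
    · intro h
      obtain ⟨p2, p3, p4⟩ := hp _ h
      rw [hD, hb, hx]
      norm_num at p2 p3 p4 ⊢
      ring_nf
      linarith
    · have h1 := Real.sum_le_exp_of_nonneg (by norm_num : (0:ℝ) ≤ 6 * (17 / 100)) 6
      simp only [Finset.sum_range_succ, Finset.sum_range_zero, Nat.factorial] at h1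
      norm_num at h1 ⊢
      linarith
  · apply key (145 / 1000) 8 (by norm_num) (by norm_num) (by norm_num) _ (by rw [hx]; norm_num)
      (by norm_num)
    · intro h
      obtain ⟨p2, p3, p4⟩ := hp _ h
      rw [hD, hb, hx]
      norm_num at p2 p3 p4 ⊢
      ring_nf
      linarith
    · have h1 := Real.sum_le_exp_of_nonneg (by norm_num : (0:ℝ) ≤ 8 * (145 / 1000)) 6
      simp only [Finset.sum_range_succ, Finset.sum_range_zero, Nat.factorial] at h1
      norm_num at h1 ⊢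
      linarith
  · apply key (1275 / 10000) 10 (by norm_num) (by norm_num) (by norm_num) _ (by rw [hx]; norm_num)
      (by norm_num)
    · intro h
      obtain ⟨p2, p3, p4⟩ := hp _ h
      rw [hD, hb, hx]
      norm_num at p2 p3 p4 ⊢
      ring_nf
      linarith
    · have h1 := Real.sum_le_exp_of_nonneg (by norm_num : (0:ℝ) ≤ 10 * (1275 / 10000)) 7
      simp only [Finset.sum_range_succ, Finset.sum_range_zero, Nat.factorial] at h1
      norm_num at h1 ⊢
      linarith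

end Pool.Agent.B5.PowR
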