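import Pool.Agent.Lib.MP_b5021c_nt.IfaceBE
import Pool.Agent.Lib.MP_b5021c_nt.KE.H96.Two
import Pool.Agent.Lib.MP_b5021c_nt.KO.H42.Pwd
import Pool.Agent.Lib.MP_b5021c_nt.KO.H89.BePowA
import Pool.Agent.Lib.MP_b5021c_nt.KO.H89.PowS
import Pool.Agent.Lib.MP_b5021c_nt.KO.H89.PowH

/-!
# Board b5, K ODD, PURE BETA: row BE_POW (`BePowS`)
-/

namespace Pool.Agent.B5.PowR

open Complex Polynomial
open scoped LaurentPolynomial
open Pool.Agent.B5.H52.T00 (evR_pl)

/-- Row POW', the maximum principle, with a real polynomial `e`. -/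
theorem pow_max {f E0 : ℤ[X]} {e : ℝ[X]} (hf : f.coeff 0 = 1) (h0 : 0 < E0.coeff 0)
    (hz : ∀ z : ℂ, ‖z‖ ≤ 1 → (aeval z E0 : ℂ) ≠ 0)
    (hp : ∀ z : ℂ, ‖z‖ = 1 → (1 + z) * (aeval z f : ℂ) ≠ 0 → ‖(aeval z e : ℂ)‖ ≤
      2 * ‖(aeval z E0 : ℂ)‖ * Real.log (‖(aeval z E0 : ℂ)‖ / ‖(1 + z) * (aeval z f : ℂ)‖)) :
    e.coeff 0 ≤ 2 * (E0.coeff 0 : ℝ) * Real.log (E0.coeff 0 : ℝ) := by
  obtain ⟨Ps, hPs⟩ : ∃ Ps : ℂ → ℂ, Ps = fun z => ((1 + z) * aeval z f / aeval z E0)^2 *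
      exp (aeval z e / aeval z E0) := ⟨_, rfl⟩
  have hda : ∀ q : ℤ[X], Differentiable ℂ (fun z : ℂ => (aeval z q : ℂ)) := fun q =>
    q.differentiable_aeval
  have hde : Differentiable ℂ (fun z : ℂ => (aeval z e : ℂ)) := e.differentiable_aeval
  have hcont : ∀ z : ℂ, ‖z‖ ≤ 1 → DifferentiableAt ℂ Ps z := by
    intro z h1
    have h2 := hz z h1
    rw [hPs]
    apply DifferentiableAt.mul
    · apply DifferentiableAt.pow
      exact (((differentiableAt_const _).add differentiableAt_id).mul (hda f z)).div (hda E0 z) h2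
    · apply DifferentiableAt.cexp
      exact (hde z).div (hda E0 z) h2
  have hall : ∀ z : ℂ, ‖z‖ = 1 → ‖Ps z‖ ≤ 1 := by
    intro z h1
    have hE := hz z h1.le
    have hEp : 0 < ‖(aeval z E0 : ℂ)‖ := norm_pos_iff.mpr hE
    rw [hPs]
    simp only
    by_cases hza : (1 + z) * (aeval z f : ℂ) = 0
    · rw [hza]; simp
    have h3 := hp z h1 hza
    have hzp : 0 < ‖(1 + z) * (aeval z f : ℂ)‖ := norm_pos_iff.mpr hza
    rw [norm_mul, norm_pow, norm_div, Complex.norm_exp]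
    have h4 : (aeval z e / aeval z E0 : ℂ).re ≤
        2 * Real.log (‖(aeval z E0 : ℂ)‖ / ‖(1 + z) * (aeval z f : ℂ)‖) := by
      refine (re_le_norm _).trans ?_
      rw [norm_div, div_le_iff₀ hEp]
      linarith
    calc (‖(1 + z) * (aeval z f : ℂ)‖ / ‖(aeval z E0 : ℂ)‖) ^ 2 *
        Real.exp (aeval z e / aeval z E0 : ℂ).re ≤
        (‖(1 + z) * (aeval z f : ℂ)‖ / ‖(aeval z E0 : ℂ)‖) ^ 2 *
          Real.exp (2 * Real.log (‖(aeval z E0 : ℂ)‖ / ‖(1 + z) * (aeval z f : ℂ)‖)) :=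
          mul_le_mul_of_nonneg_left (Real.exp_le_exp.mpr h4) (by positivity)
      _ = 1 := by
          rw [two_mul, Real.exp_add, Real.exp_log (by positivity)]
          field_simp
  have hmax : ‖Ps 0‖ ≤ 1 := by
    have hfr : frontier (Metric.ball (0:ℂ) 1) = Metric.sphere 0 1 := frontier_ball 0 one_ne_zero
    have hcl : closure (Metric.ball (0:ℂ) 1) = Metric.closedBall 0 1 := closure_ball 0 one_ne_zero
    have hd : DiffContOnCl ℂ Ps (Metric.ball (0:ℂ) 1) := by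
      apply DifferentiableOn.diffContOnCl
      intro z h1
      rw [hcl, mem_closedBall_zero_iff] at h1
      exact (hcont z h1).differentiableWithinAt
    apply Complex.norm_le_of_forall_mem_frontier_norm_le Metric.isBounded_ball hd _
      (by rw [hcl]; simp)
    intro z h1
    rw [hfr, mem_sphere_zero_iff_norm] at h1
    exact hall z h1
  have hcr : ∀ q : ℤ[X], (aeval (0:ℂ) q : ℂ) = q.coeff 0 := by
    intro q
    simp [Polynomial.aeval_def, Polynomial.eval₂_at_zero]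
  obtain ⟨M, hM⟩ : ∃ M : ℝ, M = (E0.coeff 0 : ℝ) := ⟨_, rfl⟩
  have hM0 : 0 < M := by rw [hM]; exact_mod_cast h0
  rw [← hM]
  rw [hPs] at hmax
  simp only at hmax
  rw [norm_mul, norm_pow, norm_div, norm_mul, Complex.norm_exp, hcr, hcr, hf] at hmax
  have e1 : ‖(1:ℂ) + 0‖ = 1 := by simp
  have e2 : ‖((1:ℤ):ℂ)‖ = 1 := by simp
  have e3 : ‖((E0.coeff 0 : ℤ) : ℂ)‖ = M := by
    rw [hM, show ((E0.coeff 0 : ℤ) : ℂ) = (((E0.coeff 0 : ℤ) : ℝ) : ℂ) by push_cast; ring, Complex.norm_real,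
      Real.norm_of_nonneg (by exact_mod_cast h0.le)]
  have e4 : ((aeval (0:ℂ) e : ℂ) / ((E0.coeff 0 : ℤ) : ℂ)).re = e.coeff 0 / M := by
    have : ((aeval (0:ℂ) e : ℂ) / ((E0.coeff 0 : ℤ) : ℂ)) = ((e.coeff 0 / M : ℝ) : ℂ) := by
      rw [hM, O4P.aeval0]
      push_cast
      ring
    rw [this, Complex.ofReal_re]
  rw [e1, e2, e3, e4, mul_one] at hmax
  have h5 : Real.exp (e.coeff 0 / M) ≤ M ^ 2 := by
    have h6 : M ^ 2 * ((1 / M) ^ 2 * Real.exp (e.coeff 0 / M)) ≤ M ^ 2 * 1 :=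
      mul_le_mul_of_nonneg_left hmax (by positivity)
    calc Real.exp (e.coeff 0 / M) = M ^ 2 * ((1 / M) ^ 2 * Real.exp (e.coeff 0 / M)) := by
          field_simp
      _ ≤ M ^ 2 * 1 := h6
      _ = M ^ 2 := mul_one _
  have h6 := Real.log_le_log (Real.exp_pos _) h5
  rw [Real.log_exp, Real.log_pow, div_le_iff₀ hM0] at h6
  push_cast at h6
  linarith

/-- `q > 0` on `[0, a)`. -/
theorem qn_pos {q : ℤ[X]} {a x : ℝ} (h : Qn q a) (hx0 : 0 ≤ x) (hxa : x < a) :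
    0 < (aeval x q : ℝ) := by
  obtain ⟨s, hs, hs0⟩ := h.s
  have hev : ∀ t : ℝ, (aeval t q : ℝ) = (t - a) * s.eval t := by
    intro t
    have h1 := congrArg (eval t) hs
    rw [eval_map, eval_mul, eval_sub, eval_X, eval_C] at h1
    rw [← h1]; rfl
  have hs00 : s.eval 0 < 0 := by
    have h1 := hev 0
    have h2 : (aeval (0 : ℝ) q : ℝ) = 1 := by
      have : (aeval (0 : ℝ) q : ℝ) = ((q.coeff 0 : ℤ) : ℝ) := by
        simp [Polynomial.aeval_def, Polynomial.eval₂_at_zero]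
      rw [this, h.q0]; norm_num
    rw [h2, zero_sub] at h1
    have ha := h.a0
    by_contra hcon
    push Not at hcon
    nlinarith
  have hsx : s.eval x < 0 := by
    by_contra hcon
    push Not at hcon
    have hmem : (0 : ℝ) ∈ Set.Icc (s.eval 0) (s.eval x) := ⟨hs00.le, hcon⟩
    obtain ⟨t, ht, ht0⟩ := intermediate_value_Icc hx0 (f := fun t => s.eval t)
      (by fun_prop) hmem
    apply hs0 (t : ℂ)
    · rw [norm_real, Real.norm_of_nonneg ht.1]
      exact ht.2.trans (hxa.le.trans h.a1.le)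
    · rw [Pool.Agent.B5.Nr.Sch.aeval_re]
      simp only at ht0
      rw [ht0, ofReal_zero]
  rw [hev x]
  exact mul_pos_of_neg_of_neg (by linarith) hsx

section

variable {P L : Type} [Fintype P] [DecidableEq P] [AddCommGroup L] [Module.Free ℤ L]
  [Module.Finite ℤ L] {phi : L →+ (P → ℤ)} {D : AO ℤ L}

/-- The face of `S 0`, `S 1` and all `T i`. -/
theorem be_face (hF : FcmS) {q f : ℤ[X]} {a : ℝ} {j s : ℕ} {S : Fin 3 → L}
    {es : Fin 3 → (RO ℤ)ˣ} {T : Fin s → L} {lam : Fin s → (RO ℤ)ˣ}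
    (h : Be phi D q f a j s S es T lam) (w : Circle) :
    ∃ b : Finset (Fin s) → ℂ,
      (∀ (x : Fin s → ℂ) (y0 y1 : ℂ), (∀ i, ‖x i‖ < 1) → ‖y0‖ < 1 → ‖y1‖ < 1 →
        ma b x + w * aeval (w : ℂ) f * (∏ i, (1 - x i)) * (1 - (1 - y0) * (1 - y1)) ≠ 0) ∧
      ma b 0 = aeval (w : ℂ) q ∧
      ∀ i, ma b (Pi.single i 1) = evR w (bm D (T i) (lam i)) := by
  classical
  have hD : DD phi D := h.ko.min.fp.dd
  have h2 : 2 ≤ Module.finrank ℤ L := by
    rw [h.ko.rk]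
    have := h.ko.j2
    omega
  have bS : ∀ i, Bin phi (S i) := fun i => hD.bin _ (h.rS i).1
  have bT : ∀ i, Bin phi (T i) := fun i => hD.bin _ (h.rT i).1
  refine ⟨fun J => (∏ i ∈ J, evR w (lam i : RO ℤ)) * evR w (D.coeff (∑ i ∈ J, T i)), ?_, ?_, ?_⟩
  · intro x y0 y1 hx hy0 hy1 hcon
    refine face_multi hF hD h2 (S 0) (S 1) T (ld (es 0) 1) (ld (es 1) 1) lam (bS 0) (bS 1) bT
      (h.rS 0).2.1 (h.rS 1).2.1 (fun i => (h.rT i).2.1) (h.dSS 0 1 (by decide))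
      (fun i p => h.dST 0 i p) (fun i p => h.dST 1 i p) h.dTT w x y0 y1 hx hy0 hy1 ?_
    rw [← hcon]
    have hprod : ∏ i, (1 - x i) = ∑ J : Finset (Fin s), (-1) ^ J.card * ∏ i ∈ J, x i := by
      rw [Finset.prod_sub, ← Finset.powerset_univ]
      simp
    rw [hprod, ma, Finset.mul_sum, Finset.sum_mul, ← Finset.sum_add_distrib]
    apply Finset.sum_congr rfl
    intro J _
    have g0 := congrArg (evR w) (h.psi {0} J (by decide) (by decide))
    have g1 := congrArg (evR w) (h.psi {1} J (by decide) (by decide))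
    have g01 := congrArg (evR w) (h.psi {0, 1} J (by decide) (by decide))
    have c01 : ({0, 1} : Finset (Fin 3)).card = 2 := by decide
    have n01 : (0 : Fin 3) ∉ ({1} : Finset (Fin 3)) := by decide
    simp only [sST, Finset.sum_singleton, Finset.prod_singleton, Finset.card_singleton, c01,
      Finset.sum_insert n01, Finset.prod_insert n01,
      map_mul, map_neg, map_pow, map_one, map_prod, evR_pl, aeval_X, pow_add, pow_one] at g0 g1 g01
    linear_combination (y0 * ∏ i ∈ J, x i) * g0 + (y1 * ∏ i ∈ J, x i) * g1 +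
      (y0 * y1 * ∏ i ∈ J, x i) * g01
  · rw [ma_zero]
    simp only [Finset.prod_empty, Finset.sum_empty, h.ko.D0, evR_pl, one_mul]
  · intro i
    rw [ma_single]
    simp only [Finset.prod_empty, Finset.sum_empty, Finset.prod_singleton,
      Finset.sum_singleton, bm, map_add, map_mul, one_mul]

end

/-- ROW BE_POW. -/
theorem bePowS (hF : FcmS) : BePowS := by
  intro P L _ _ _ _ _ phi D q f a j s S es T lam h eps heps hpos
  classical
  have hj := h.ko.j2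
  have hs := h.s2
  obtain ⟨E0, hE, hE1, -, hEz⟩ := KE.typa (h.nS 0).loc h.f0 (h.nS 0).ne
  have hE0 : E0.coeff 0 = j + 1 := by rw [hE1]; exact h.n
  obtain ⟨i0, hi0⟩ : ∃ i0 : Fin s, i0 = ⟨0, by omega⟩ := ⟨_, rfl⟩
  obtain ⟨m, hm⟩ : ∃ m : Circle → Fin s → ℂ, m = fun w i => evR w (bm D (T i) (lam i)) := ⟨_, rfl⟩
  obtain ⟨e, he⟩ : ∃ e : ℝ[X], e = ∑ i, eps i := ⟨_, rfl⟩
  have hec : e.coeff 0 = ∑ i, (eps i).coeff 0 := by rw [he, Polynomial.finsetSum_coeff]
  have hele : ∀ w : Circle, ‖(aeval (w : ℂ) e : ℂ)‖ ≤ ∑ i, ‖m w i‖ := by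
    intro w
    rw [he, map_sum]
    refine (norm_sum_le _ _).trans (Finset.sum_le_sum fun i _ => ?_)
    rw [heps i w, hm]
  have hqz : ∀ z : ℂ, (aeval z q : ℂ) = aeval z f - z * aeval z E0 := by
    intro z
    have h3 : (aeval z (f - q) : ℂ) = aeval z (X * E0) := by rw [hE]
    rw [map_sub, map_mul, aeval_X] at h3
    linear_combination -h3
  have hU : ∀ z : ℂ, (aeval z q : ℂ) - 3 / 4 * z * aeval z f =
      -(z * aeval z E0 - (1 - 3 / 4 * z) * aeval z f) := by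
    intro z
    rw [hqz]; ring
  -- the two inequalities on the circle
  have key1 : ∀ w : Circle, (aeval (w : ℂ) f : ℂ) ≠ 0 → m w i0 ≠ 0 →
      9 / 4 * ‖(aeval (w : ℂ) f : ℂ)‖ ≤
        ‖(w : ℂ) * aeval (w : ℂ) E0 - (1 - 3 / 4 * w) * aeval (w : ℂ) f‖ ∧
      ∑ i, ‖m w i‖ ≤ 2 * ‖(w : ℂ) * aeval (w : ℂ) E0 - (1 - 3 / 4 * w) * aeval (w : ℂ) f‖ *
        Real.log (‖(w : ℂ) * aeval (w : ℂ) E0 - (1 - 3 / 4 * w) * aeval (w : ℂ) f‖ /
          (9 / 4 * ‖(aeval (w : ℂ) f : ℂ)‖)) := by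
    intro w hfw hmw
    obtain ⟨b, hb1, hb2, hb3⟩ := be_face hF h w
    have hmb : ∀ i, ma b (Pi.single i 1) = m w i := fun i => by rw [hb3 i, hm]
    have h1 := sum_u b (aeval (w : ℂ) f) w (Circle.norm_coe w) hb1 hfw i0 (by rw [hmb]; exact hmw)
    simp only [hmb] at h1
    rw [hb2, hU, norm_neg] at h1
    exact h1
  have key2 : ∀ w : Circle, (1 + (w : ℂ)) * (aeval (w : ℂ) f : ℂ) ≠ 0 →
      ∑ i, ‖m w i‖ ≤ 2 * ‖(aeval (w : ℂ) E0 : ℂ)‖ *
        Real.log (‖(aeval (w : ℂ) E0 : ℂ)‖ / ‖(1 + (w : ℂ)) * (aeval (w : ℂ) f : ℂ)‖) := by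
    intro w hw
    obtain ⟨b, hb1, hb2, hb3⟩ := be_face hF h w
    have hmb : ∀ i, ma b (Pi.single i 1) = m w i := fun i => by rw [hb3 i, hm]
    have h1 := sum_v b (aeval (w : ℂ) f) w (Circle.norm_coe w) hb1 hw
    simp only [hmb] at h1
    have h2 : ‖ma b 0 - aeval (w : ℂ) f‖ = ‖(aeval (w : ℂ) E0 : ℂ)‖ := by
      rw [hb2, hqz, show (aeval (w : ℂ) f : ℂ) - w * aeval (w : ℂ) E0 - aeval (w : ℂ) f =
        -(w * aeval (w : ℂ) E0) by ring, norm_neg, norm_mul, Circle.norm_coe, one_mul]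
    rw [h2] at h1
    exact h1
  -- the exceptional set
  obtain ⟨Z, hZ⟩ : ∃ Z : Set ℂ, Z = {z : ℂ | (aeval z (eps i0) : ℂ) = 0} := ⟨_, rfl⟩
  have hZf : Z.Finite := by
    have hne : eps i0 ≠ 0 := by
      intro h1
      have h2 := hpos i0
      rw [h1, coeff_zero] at h2
      exact lt_irrefl _ h2
    have hq0 : (eps i0).map (algebraMap ℝ ℂ) ≠ 0 := by
      rw [Ne, Polynomial.map_eq_zero_iff (algebraMap ℝ ℂ).injective]; exact hne
    refine (((eps i0).map (algebraMap ℝ ℂ)).roots.toFinset.finite_toSet).subset ?_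
    intro x hx
    rw [hZ] at hx
    simp only [Finset.mem_coe, Multiset.mem_toFinset]
    rw [Polynomial.mem_roots hq0, Polynomial.IsRoot, Polynomial.eval_map]
    simpa [Polynomial.aeval_def] using hx
  have hcir : ∀ z : ℂ, ‖z‖ = 1 → ∃ w : Circle, (w : ℂ) = z := fun z hz =>
    ⟨⟨z, by simpa [Submonoid.unitSphere] using hz⟩, rfl⟩
  have hmZ : ∀ w : Circle, (w : ℂ) ∉ Z → m w i0 ≠ 0 := by
    intro w hw h1
    apply hw
    rw [hZ]
    show (aeval (w : ℂ) (eps i0) : ℂ) = 0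
    have h2 := heps i0 w
    rw [hm] at h1
    simp only at h1
    rw [h1, norm_zero, norm_eq_zero] at h2
    exact h2
  -- `E0` has no zero in the closed disc
  have hz : ∀ z : ℂ, ‖z‖ ≤ 1 → (aeval z E0 : ℂ) ≠ 0 := by
    intro z hz1
    rcases lt_or_eq_of_le hz1 with h1 | h1
    · exact hEz z h1
    · intro hE2
      have hc1 : Continuous fun z : ℂ => 9 / 4 * ‖(aeval z f : ℂ)‖ :=
        continuous_const.mul (Polynomial.differentiable_aeval f).continuous.norm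
      have hc2 : Continuous fun z : ℂ => ‖z * aeval z E0 - (1 - 3 / 4 * z) * (aeval z f : ℂ)‖ := by
        have g1 := (Polynomial.differentiable_aeval (𝕜 := ℂ) f).continuous
        have g2 := (Polynomial.differentiable_aeval (𝕜 := ℂ) E0).continuous
        exact ((continuous_id.mul g2).sub ((continuous_const.sub
          (continuous_const.mul continuous_id)).mul g1)).norm
      have h2 := O4P.circle_le hc1.continuousOn hc2.continuousOn hZf.countable
        (fun z hz1 hzZ => by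
          obtain ⟨w, rfl⟩ := hcir z hz1
          by_cases hf0 : (aeval (w : ℂ) f : ℂ) = 0
          · simp only [hf0, norm_zero, mul_zero]; positivity
          · exact (key1 w hf0 (hmZ w hzZ)).1) h1
      have hfz : (aeval z f : ℂ) ≠ 0 := by
        intro h3
        obtain ⟨r, hr, hr0⟩ := h.ko.qn.s
        have h4 : (aeval z q : ℂ) = (z - a) * aeval z r := by
          rw [← Pool.Agent.B5.Nr.Sch.aeval_map_real, hr]; simp
        have h5 : z - a ≠ 0 := by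
          intro h6
          have h7 := sub_eq_zero.mp h6
          rw [h7, norm_real, Real.norm_of_nonneg h.ko.qn.a0.le] at h1
          exact h.ko.qn.a1.ne h1
        apply mul_ne_zero h5 (hr0 z hz1)
        rw [← h4, hqz, h3, hE2]; ring
      have h3 : 0 < ‖(aeval z f : ℂ)‖ := norm_pos_iff.mpr hfz
      have h4 : ‖z * (aeval z E0 : ℂ) - (1 - 3 / 4 * z) * aeval z f‖ ≤
          7 / 4 * ‖(aeval z f : ℂ)‖ := by
        rw [hE2, mul_zero, zero_sub, norm_neg, norm_mul]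
        apply mul_le_mul_of_nonneg_right _ (norm_nonneg _)
        calc ‖1 - 3 / 4 * z‖ ≤ ‖(1 : ℂ)‖ + ‖3 / 4 * z‖ := norm_sub_le _ _
          _ = 7 / 4 := by rw [norm_mul, h1]; norm_num
      linarith
  refine ⟨?_, fun hj6 => ?_⟩
  · have h1 := pow_max (e := e) h.f0 (by rw [hE0]; positivity) hz (fun z hz1 hza => by
      obtain ⟨w, rfl⟩ := hcir z hz1
      exact (hele w).trans (key2 w hza))
    rw [hec, hE0] at h1
    push_cast at h1
    exact h1
  · by_contra hcon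
    push Not at hcon
    rw [← hec] at hcon
    have ha1 : ∀ z : ℂ, ‖z‖ = 1 → z ∉ Z → (aeval z f : ℂ) ≠ 0 →
        9 / 4 * ‖(aeval z f : ℂ)‖ ≤ ‖z * aeval z E0 - (1 - 3 / 4 * z) * aeval z f‖ := by
      intro z hz1 hzZ hfz
      obtain ⟨w, rfl⟩ := hcir z hz1
      exact (key1 w hfz (hmZ w hzZ)).1
    have ha2 : ∀ z : ℂ, ‖z‖ = 1 → z ∉ Z → (aeval z f : ℂ) ≠ 0 →
        ‖z * aeval z e / (z * aeval z E0 - (1 - 3 / 4 * z) * aeval z f)‖ ≤
          2 * Real.log (‖z * aeval z E0 - (1 - 3 / 4 * z) * aeval z f‖ /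
            (9 / 4 * ‖(aeval z f : ℂ)‖)) := by
      intro z hz1 hzZ hfz
      obtain ⟨w, rfl⟩ := hcir z hz1
      obtain ⟨h1, h2⟩ := key1 w hfz (hmZ w hzZ)
      have h3 : 0 < ‖(w : ℂ) * aeval (w : ℂ) E0 - (1 - 3 / 4 * w) * aeval (w : ℂ) f‖ := by
        have := norm_pos_iff.mpr hfz
        linarith
      rw [norm_div, norm_mul, Circle.norm_coe, one_mul, div_le_iff₀ h3]
      have h4 := (hele w).trans h2
      linarith
    obtain ⟨ze, z0, hb0, hA, hB⟩ := O4P.pwbR h.f0 hE0 hz hZf.countable ha1 ha2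
    refine pw_num hj hj6 z0 hcon hA (x := 1 / ((j:ℝ) + 1)) rfl (D0 := 1 - (9 / 4 * ze) ^ 2) rfl
      (b1 := 9 / 4 * (((j:ℝ) + 7 / 4) * ze + ze ^ 2 - 1)) rfl (fun hD => ?_)
    have h9 : 9 * ze / 4 = 9 / 4 * ze := by ring
    obtain ⟨h1, h2⟩ := hB (9 / 4 * ze) _ _ h9.symm rfl rfl hD
    refine ⟨h1, fun hzx => ?_⟩
    have hNr : (2:ℝ) ≤ j := by exact_mod_cast hj
    refine h2 _ hzx (by rw [div_lt_one (by positivity)]; linarith) ?_
    have h3 : (aeval (1 / ((j:ℝ) + 1)) (f - q) : ℝ) = aeval (1 / ((j:ℝ) + 1)) (X * E0) := by rw [hE]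
    rw [map_sub, map_mul, aeval_X] at h3
    have h4 := qn_pos h.ko.qn (x := 1 / ((j:ℝ) + 1)) (by positivity) (by
      rw [div_lt_iff₀ (by positivity)]
      have := h.ko.lt
      linarith)
    linarith

end Pool.Agent.B5.PowR
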