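import Mathlib

/-!
# Board b5, K ODD, PURE BETA, row POW, part A: the cardioid and the half plane
-/

namespace Pool.Agent.B5.PowR

open Complex

/-- the closing polynomial -/
noncomputable def gp (z : ℂ) : ℂ := (119/100) * (1 + (645/1000) * z + (38/1000) * z^2 - (24/1000) * z^3)

lemma gp_zero : gp 0 = 119/100 := by simp [gp]

lemma gp_sq (c s : ℝ) (h : c^2 + s^2 = 1) :
    ‖gp (c + s * I)‖^2 = (119/100)^2 * (1 + (645/1000)^2 + (38/1000)^2 + (24/1000)^2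
      + 2*c*((645/1000) + (645/1000)*(38/1000) - (38/1000)*(24/1000))
      + 2*(2*c^2-1)*((38/1000) - (645/1000)*(24/1000)) - 2*(4*c^3-3*c)*(24/1000)) := by
  have hs : s^2 = 1 - c^2 := by linarith
  rw [← Complex.normSq_eq_norm_sq, Complex.normSq_apply]
  have hre : (gp (c + s * I)).re = (119/100) * (1 + (645/1000) * c + (38/1000) * (c^2 - s^2)
      - (24/1000) * (c^3 - 3*c*s^2)) := by
    simp [gp, pow_succ, Complex.add_re, Complex.mul_re]
    ring
  have him : (gp (c + s * I)).im = (119/100) * ((645/1000) * s + (38/1000) * (2*c*s)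
      - (24/1000) * (3*c^2*s - s^3)) := by
    simp [gp, pow_succ, Complex.add_im, Complex.mul_im]
    norm_num
    ring
  rw [hre, him]
  have h4 : s^4 = (1-c^2)^2 := by rw [← hs]; ring
  have h6 : s^6 = (1-c^2)^3 := by rw [← hs]; ring
  ring_nf
  rw [h4, h6, hs]
  ring

lemma gp_le_one (c s : ℝ) (h : c^2 + s^2 = 1) (hc : -1/2 ≤ c) :
    ‖gp (c + s * I)‖^2 ≤ 2 + 2*c := by
  rw [gp_sq c s h]
  have h1 : c ≤ 1 := by nlinarith [sq_nonneg s, sq_nonneg (c-1)]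
  nlinarith [mul_nonneg (sub_nonneg.mpr h1) (by linarith : 0 ≤ c + 1/2), sq_nonneg (c - 545/1000),
    mul_nonneg (sub_nonneg.mpr h1) (sq_nonneg (c-545/1000)),
    mul_nonneg (by linarith : 0 ≤ c + 1/2) (sq_nonneg (c - 545/1000))]

lemma gp_le_two (c s : ℝ) (h : c^2 + s^2 = 1) (hc : c ≤ -1/2) :
    ‖gp (c + s * I)‖^2 ≤ (3/2 + c)^2 := by
  rw [gp_sq c s h]
  have h1 : -1 ≤ c := by nlinarith [sq_nonneg s, sq_nonneg (c+1)]
  nlinarith [mul_nonneg (by linarith : 0 ≤ c + 1) (by linarith : 0 ≤ -1/2 - c), sq_nonneg (c + 8/10),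
    mul_nonneg (by linarith : 0 ≤ c+1) (sq_nonneg (c+8/10)),
    mul_nonneg (by linarith : 0 ≤ -1/2 - c) (sq_nonneg (c + 8/10))]

/-- distance to the complement of the hull: the round part -/
lemma dist_one (t p : ℝ) (ht : 1/2 ≤ Real.cos t) :
    2 * Real.cos p ≤ 3 * Real.cos t - Real.cos (3*t + 2*p) := by
  have key : 3 * Real.cos t - Real.cos (3*t + 2*p) - 2 * Real.cos p =
      2 * (1 - Real.cos (t+p)) * (2 * Real.cos t + Real.cos (2*t+p)) := by
    have e1 : 3*t + 2*p = 3*(t+p) - p := by ring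
    have e2 : 2*t + p = 2*(t+p) - p := by ring
    obtain ⟨d, hd⟩ : ∃ d, d = t + p := ⟨_, rfl⟩
    have e3 : t = d - p := by rw [hd]; ring
    rw [e1, e2, ← hd, e3, Real.cos_sub, Real.cos_sub, Real.cos_sub, Real.cos_three_mul,
      Real.sin_three_mul, Real.cos_two_mul, Real.sin_two_mul]
    have h1 : Real.sin d^2 = 1 - Real.cos d^2 := by rw [Real.sin_sq]
    have h3 : Real.sin d^3 = (1 - Real.cos d^2) * Real.sin d := by rw [← h1]; ring
    rw [h3]
    ring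
  have h1 : Real.cos (t+p) ≤ 1 := Real.cos_le_one _
  have h2 : -1 ≤ Real.cos (2*t+p) := Real.neg_one_le_cos _
  nlinarith [mul_nonneg (sub_nonneg.mpr h1) (by linarith : 0 ≤ 2 * Real.cos t + Real.cos (2*t+p))]

/-- the flat part -/
lemma dist_two (t p : ℝ) (ht : 1/2 ≤ Real.cos t) (hp : Real.cos p ≤ -1/2) :
    3/2 + Real.cos p ≤ 3 * Real.cos t - Real.cos (3*t + p) := by
  obtain ⟨C, hC⟩ : ∃ C, C = Real.cos t := ⟨_, rfl⟩
  obtain ⟨S, hS⟩ : ∃ S, S = Real.sin t := ⟨_, rfl⟩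
  obtain ⟨c, hc⟩ : ∃ c, c = Real.cos p := ⟨_, rfl⟩
  obtain ⟨s, hs⟩ : ∃ s, s = Real.sin p := ⟨_, rfl⟩
  have h1 : S^2 = 1 - C^2 := by rw [hS, hC, Real.sin_sq]
  have h2 : s^2 = 1 - c^2 := by rw [hs, hc, Real.sin_sq]
  rw [← hC] at ht
  rw [← hc] at hp
  have key : 3 * Real.cos t - Real.cos (3*t + p) - (3/2 + Real.cos p) =
      (2*C-1)*(3/2 - c*(C+1)*(2*C-1) + s*S*(2*C+1)) := by
    rw [Real.cos_add, Real.cos_three_mul, Real.sin_three_mul, ← hC, ← hS, ← hc, ← hs]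
    have h3 : S^3 = (1 - C^2) * S := by rw [← h1]; ring
    rw [h3]
    ring
  have hC1 : C ≤ 1 := by rw [hC]; exact Real.cos_le_one _
  have hc1 : -1 ≤ c := by rw [hc]; exact Real.neg_one_le_cos _
  have h4 : |s*S*(2*C+1)| ≤ C^2 + C/2 + 1 := by
    apply abs_le_of_sq_le_sq _ (by nlinarith)
    have e : (s*S*(2*C+1))^2 = (1-c^2)*(1-C^2)*(2*C+1)^2 := by
      rw [mul_pow, mul_pow, h1, h2]
    rw [e]
    have h5 : (1-c^2) ≤ 3/4 := by nlinarith
    have h6 : 0 ≤ (1-C^2)*(2*C+1)^2 := mul_nonneg (by nlinarith) (sq_nonneg _)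
    have h7 : (1-c^2)*(1-C^2)*(2*C+1)^2 ≤ 3/4*((1-C^2)*(2*C+1)^2) := by nlinarith
    refine h7.trans ?_
    have h8 : 0 ≤ (C-1/2)*(4*C^3+6*C^2+3*C-1/2) := mul_nonneg (by linarith) (by nlinarith [pow_pos (by linarith : 0 < C) 3, pow_pos (by linarith : 0 < C) 2])
    nlinarith
  have h9 := (abs_le.mp h4).1
  have h10 : C^2 + C/2 + 1 ≤ 3/2 - c*(C+1)*(2*C-1) := by
    nlinarith [mul_nonneg (mul_nonneg (by linarith : 0 ≤ -1/2 - c) (by linarith : 0 ≤ C+1)) (by linarith : 0 ≤ 2*C-1)]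
  have h11 : 0 ≤ (2*C-1)*(3/2 - c*(C+1)*(2*C-1) + s*S*(2*C+1)) :=
    mul_nonneg (by linarith) (by linarith)
  linarith

lemma gp_le (t p : ℝ) (ht : 1/2 ≤ Real.cos t) :
    ‖gp (exp (p * I))‖ ≤ 3 * Real.cos t - Real.cos (3*t + p) := by
  have e : exp (p * I) = (Real.cos p : ℝ) + (Real.sin p : ℝ) * I := by
    rw [Complex.exp_mul_I, ← Complex.ofReal_cos, ← Complex.ofReal_sin]
  have hcs : Real.cos p^2 + Real.sin p^2 = 1 := by rw [Real.cos_sq_add_sin_sq]
  rw [e]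
  by_cases hp : Real.cos p ≤ -1/2
  · have h1 := gp_le_two _ _ hcs hp
    have h0 : -1 ≤ Real.cos p := Real.neg_one_le_cos _
    have h2 := abs_le_of_sq_le_sq h1 (by linarith)
    exact ((le_abs_self _).trans h2).trans (dist_two t p ht hp)
  · push Not at hp
    have h1 := gp_le_one _ _ hcs hp.le
    -- take the root with nonnegative cosine
    obtain ⟨q, hq, hq2⟩ : ∃ q : ℝ, Real.cos (3*t + p) = Real.cos (3*t + 2*q) ∧
        0 ≤ Real.cos q ∧ Real.cos p = Real.cos (2*q) := by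
      rcases le_total 0 (Real.cos (p/2)) with h | h
      · exact ⟨p/2, by congr 1; ring, h, by congr 1; ring⟩
      · refine ⟨p/2 + Real.pi, ?_, ?_, ?_⟩
        · rw [show 3*t + 2*(p/2+Real.pi) = 3*t + p + 2*Real.pi by ring, Real.cos_add_two_pi]
        · rw [Real.cos_add_pi]; linarith
        · rw [show 2*(p/2+Real.pi) = p + 2*Real.pi by ring, Real.cos_add_two_pi]
    have h3 : 2 + 2 * Real.cos p = (2 * Real.cos q)^2 := by
      rw [hq2.2, Real.cos_two_mul]; ring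
    rw [h3] at h1
    have h2 := abs_le_of_sq_le_sq h1 (by linarith [hq2.1])
    rw [hq]
    exact ((le_abs_self _).trans h2).trans (dist_one t q ht)

end Pool.Agent.B5.PowR
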