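import Pool.Agent.Lib.MP_b5021c_nt.KO.H89.PowA

/-!
# Board b5, K ODD, PURE BETA, row POW, part B: the half plane argument and the product of the roots
-/

namespace Pool.Agent.B5.PowR

open Complex Polynomial

/-- The image of the disc under a Moebius map with a pole on the circle is a half plane; it avoids
the cardioid, so it avoids its convex hull. -/
lemma half_plane (A0 A1 b z : ℂ) (hz : ‖z‖ = 1) (hb : b ≠ 0)
    (h : ∀ x y0 y1 : ℂ, ‖x‖ < 1 → ‖y0‖ < 1 → ‖y1‖ < 1 →
      A0 + A1 * x ≠ b * (1 - x) * ((1 - y0) * (1 - y1)))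
    (hne : A0 + A1 ≠ 0) : 2 * ‖b‖ * ‖gp z‖ ≤ ‖(A0 - A1) - 2 * b * (1 + z⁻¹)‖ := by
  obtain ⟨al, hal⟩ : ∃ al, al = (A0 - A1) / (2*b) := ⟨_, rfl⟩
  obtain ⟨be, hbe⟩ : ∃ be, be = (A0 + A1) / (2*b) := ⟨_, rfl⟩
  have h2b : (2*b) ≠ 0 := mul_ne_zero two_ne_zero hb
  have hbe0 : be ≠ 0 := by rw [hbe]; exact div_ne_zero hne h2b
  have hA0 : A0 = b * (al + be) := by rw [hal, hbe]; field_simp; ring
  have hA1 : A1 = b * (be - al) := by rw [hal, hbe]; field_simp; ring
  -- the half plane avoids the open cardioid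
  have h1 : ∀ y0 y1 : ℂ, ‖y0‖ < 1 → ‖y1‖ < 1 → (((1 - y0) * (1 - y1) - al) / be).re ≤ 0 := by
    intro y0 y1 hy0 hy1
    by_contra hcon
    push Not at hcon
    obtain ⟨ze, hze⟩ : ∃ ze, ze = ((1 - y0) * (1 - y1) - al) / be := ⟨_, rfl⟩
    rw [← hze] at hcon
    have hk : (1 - y0) * (1 - y1) = al + be * ze := by rw [hze]; field_simp; ring
    have hz1 : ze + 1 ≠ 0 := by
      intro h0
      have := congrArg Complex.re h0
      simp at this
      linarith
    have hx : ‖(ze - 1) / (ze + 1)‖ < 1 := by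
      rw [norm_div, div_lt_one (norm_pos_iff.mpr hz1)]
      rw [← abs_of_nonneg (norm_nonneg (ze - 1)), ← abs_of_nonneg (norm_nonneg (ze+1)), ← sq_lt_sq,
        ← Complex.normSq_eq_norm_sq, ← Complex.normSq_eq_norm_sq, Complex.normSq_apply,
        Complex.normSq_apply]
      simp only [Complex.sub_re, Complex.add_re, Complex.one_re, Complex.sub_im, Complex.add_im,
        Complex.one_im]
      nlinarith
    apply h _ y0 y1 hx hy0 hy1
    rw [hk, hA0, hA1]
    field_simp
    ring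
  -- closure
  have h2 : ∀ y0 y1 : ℂ, ‖y0‖ ≤ 1 → ‖y1‖ ≤ 1 → (((1 - y0) * (1 - y1) - al) / be).re ≤ 0 := by
    intro y0 y1 hy0 hy1
    have hc : Continuous fun r : ℝ => (((1 - r*y0) * (1 - r*y1) - al) / be).re := by
      apply Complex.continuous_re.comp
      exact (((continuous_const.sub (Complex.continuous_ofReal.mul continuous_const)).mul
        (continuous_const.sub (Complex.continuous_ofReal.mul continuous_const))).sub
        continuous_const).div_const _
    have ht := (hc.tendsto 1).mono_left (nhdsWithin_le_nhds (s := Set.Iio 1))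
    have hle := le_of_tendsto ht (b := 0) (by
      have : Set.Ioo (0:ℝ) 1 ∈ nhdsWithin (1:ℝ) (Set.Iio 1) := Ioo_mem_nhdsLT (by norm_num)
      filter_upwards [this] with r hr
      apply h1
      · rw [norm_mul, Complex.norm_real, Real.norm_of_nonneg hr.1.le]
        nlinarith [norm_nonneg y0, hr.1, hr.2]
      · rw [norm_mul, Complex.norm_real, Real.norm_of_nonneg hr.1.le]
        nlinarith [norm_nonneg y1, hr.1, hr.2])
    simpa using hle
  -- direction
  obtain ⟨t, ht⟩ : ∃ t : ℝ, t = arg be / 3 := ⟨_, rfl⟩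
  have hpi := Real.pi_pos
  have ht1 : |t| ≤ Real.pi / 3 := by
    rw [ht, abs_div, abs_of_pos (by norm_num : (0:ℝ) < 3)]
    exact div_le_div_of_nonneg_right (Complex.abs_arg_le_pi be) (by norm_num)
  have hct : 1/2 ≤ Real.cos t := by
    rw [← Real.cos_pi_div_three, ← Real.cos_abs t]
    exact Real.cos_le_cos_of_nonneg_of_le_pi (abs_nonneg _) (by linarith) ht1
  have hbee : be = ‖be‖ * exp ((3*t : ℝ) * I) := by
    conv_lhs => rw [← Complex.norm_mul_exp_arg_mul_I be]
    congr 3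
    rw [ht]; push_cast; ring
  have hnb : 0 < ‖be‖ := norm_pos_iff.mpr hbe0
  obtain ⟨p, hp⟩ : ∃ p : ℝ, z = exp (p * I) := by
    refine ⟨arg z, ?_⟩
    conv_lhs => rw [← Complex.norm_mul_exp_arg_mul_I z, hz]
    simp
  -- the point of the cardioid
  have h3 := h2 (-exp ((2*t : ℝ) * I)) (-exp ((2*t : ℝ) * I)) (by rw [norm_neg, Complex.norm_exp_ofReal_mul_I])
    (by rw [norm_neg, Complex.norm_exp_ofReal_mul_I])
  have h4 : 4 * Real.cos t^3 ≤ (al * exp (-(3*t : ℝ) * I)).re := by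
    have e1 : ((1 - -exp ((2*t : ℝ) * I)) * (1 - -exp ((2*t : ℝ) * I)) - al) / be =
        (‖be‖⁻¹ : ℝ) * ((4 * (Real.cos t)^3 : ℝ) - al * exp (-(3*t : ℝ) * I) +
        ((4 * Real.cos t^2 * (-Real.sin t) : ℝ)) * I) := by
      have e2 : exp ((2*t : ℝ) * I) = exp ((t:ℝ) * I) * exp ((t:ℝ) * I) := by
        rw [← Complex.exp_add]; congr 1; push_cast; ring
      have e3 : (1 + exp ((2*t : ℝ) * I)) = 2 * (Real.cos t : ℝ) * exp ((t:ℝ) * I) := by
        have h5 : exp ((t:ℝ) * I) * exp (-(t:ℝ) * I) = 1 := by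
          rw [← Complex.exp_add]; simp
        have h6 : (2 : ℂ) * (Real.cos t : ℝ) = exp ((t:ℝ) * I) + exp (-(t:ℝ) * I) := by
          rw [Complex.ofReal_cos, Complex.cos]; ring
        rw [h6, e2, add_mul, mul_comm (exp (-(t:ℝ) * I)), h5]; ring
      have e4 : exp (-(3*t : ℝ) * I) * exp ((3*t : ℝ) * I) = 1 := by
        rw [← Complex.exp_add]; simp
      have e5 : exp ((t:ℝ) * I) * exp ((t:ℝ) * I) * exp (-(3*t : ℝ) * I) = exp (-(t:ℝ) * I) := by
        rw [← Complex.exp_add, ← Complex.exp_add]; congr 1; push_cast; ring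
      have e6 : exp (-(t:ℝ) * I) = (Real.cos t : ℝ) - (Real.sin t : ℝ) * I := by
        rw [show -(t:ℂ) * I = ((-t : ℝ) : ℂ) * I by push_cast; ring, Complex.exp_mul_I,
          ← Complex.ofReal_cos, ← Complex.ofReal_sin, Real.cos_neg, Real.sin_neg]
        push_cast; ring
      have hb1 : (‖be‖ : ℂ) ≠ 0 := by exact_mod_cast hnb.ne'
      have e8 : exp ((3*t : ℝ) * I) ≠ 0 := Complex.exp_ne_zero _
      have e7 : ∀ w : ℂ, w / be = (‖be‖⁻¹ : ℝ) * (w * exp (-(3*t : ℝ) * I)) := by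
        intro w
        rw [div_eq_iff hbe0, Complex.ofReal_inv]
        have e10 : (‖be‖ : ℂ)⁻¹ * (w * exp (-(3*t : ℝ) * I)) * be =
            ((‖be‖ : ℂ)⁻¹ * ‖be‖) * w * (exp (-(3*t : ℝ) * I) * exp ((3*t : ℝ) * I)) := by
          conv_lhs => rw [hbee]
          rw [norm_mul, Complex.norm_exp_ofReal_mul_I, mul_one, Complex.norm_real, norm_norm]
          ring
        rw [e10, e4, inv_mul_cancel₀ hb1]
        ring
      rw [e7]
      congr 1
      rw [sub_neg_eq_add, e3]
      have e9 : (2 * (Real.cos t : ℝ) * exp ((t:ℝ) * I) * (2 * (Real.cos t : ℝ) * exp ((t:ℝ) * I))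
          - al) * exp (-(3*t : ℝ) * I) = 4 * (Real.cos t : ℝ)^2 *
          (exp ((t:ℝ) * I) * exp ((t:ℝ) * I) * exp (-(3*t : ℝ) * I)) - al * exp (-(3*t : ℝ) * I) := by
        ring
      rw [e9, e5, e6]
      push_cast
      ring
    rw [e1, Complex.re_ofReal_mul] at h3
    have h5 : (((4 * (Real.cos t)^3 : ℝ) : ℂ) - al * exp (-(3*t : ℝ) * I) +
        ((4 * Real.cos t^2 * (-Real.sin t) : ℝ)) * I).re =
        4 * Real.cos t^3 - (al * exp (-(3*t : ℝ) * I)).re := by
      rw [Complex.add_re, Complex.sub_re, Complex.ofReal_re, Complex.re_ofReal_mul, Complex.I_re,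
        mul_zero, add_zero]
    rw [h5] at h3
    have h6 : 0 < ‖be‖⁻¹ := inv_pos.mpr hnb
    by_contra hcon
    push Not at hcon
    nlinarith [mul_pos h6 (sub_pos.mpr hcon)]
  -- conclusion
  have h5 : Real.cos (3*t) + Real.cos (3*t + p) = ((1 + z⁻¹) * exp (-(3*t : ℝ) * I)).re := by
    have e1 : (1 + z⁻¹) * exp (-(3*t : ℝ) * I) = exp ((-(3*t) : ℝ) * I) + exp ((-(3*t+p) : ℝ) * I) := by
      rw [hp, ← Complex.exp_neg, add_mul, one_mul, ← Complex.exp_add]
      congr 1
      · congr 1; push_cast; ring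
      · congr 1; push_cast; ring
    rw [e1, Complex.add_re, Complex.exp_ofReal_mul_I_re, Complex.exp_ofReal_mul_I_re, Real.cos_neg,
      Real.cos_neg]
  have h6 : ‖gp z‖ ≤ ‖al - (1 + z⁻¹)‖ := by
    have h7 := gp_le t p hct
    rw [← hp] at h7
    refine h7.trans ?_
    have h8 : ((al - (1 + z⁻¹)) * exp (-(3*t : ℝ) * I)).re ≤ ‖al - (1 + z⁻¹)‖ := by
      refine (Complex.re_le_norm _).trans ?_
      rw [norm_mul, show -((3*t : ℝ) : ℂ) * I = ((-(3*t) : ℝ) : ℂ) * I by push_cast; ring,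
        Complex.norm_exp_ofReal_mul_I, mul_one]
    refine le_trans ?_ h8
    rw [sub_mul, Complex.sub_re, ← h5]
    have h9 := Real.cos_three_mul t
    linarith
  have h7 : (A0 - A1) - 2 * b * (1 + z⁻¹) = 2 * b * (al - (1 + z⁻¹)) := by
    rw [hal]; field_simp
  rw [h7, norm_mul, norm_mul]
  have : ‖(2:ℂ)‖ = 2 := by simp
  rw [this]
  exact mul_le_mul_of_nonneg_left h6 (by positivity)

/-- One factor. -/
lemma one_factor (w : ℂ) (hw : ‖w‖ ≤ 1) (c : ℝ) (hc : 0 < c) :
    ‖1 + w‖^2 ≤ c * Real.exp ((2 + 2 * w.re) / c - 1) := by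
  have h1 : ‖1 + w‖^2 ≤ 2 + 2 * w.re := by
    have h2 : ‖w‖^2 ≤ 1 := by nlinarith [norm_nonneg w]
    rw [← Complex.normSq_eq_norm_sq, Complex.normSq_apply] at h2 ⊢
    simp only [Complex.add_re, Complex.one_re, Complex.add_im, Complex.one_im]
    nlinarith
  refine h1.trans ?_
  have h3 := Real.add_one_le_exp ((2 + 2 * w.re) / c - 1)
  calc 2 + 2 * w.re = c * ((2 + 2 * w.re) / c - 1 + 1) := by field_simp; ring
    _ ≤ _ := mul_le_mul_of_nonneg_left h3 hc.le

lemma mult_bound (c : ℝ) (hc : 0 < c) (m : Multiset ℂ) (hm : ∀ r ∈ m, ‖r‖ ≤ 1) :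
    ‖(m.map fun w => 1 + w).prod‖^2 ≤ c^(Multiset.card m) *
      Real.exp ((2 * (Multiset.card m : ℝ) + 2 * (m.sum).re) / c - Multiset.card m) := by
  induction m using Multiset.induction_on with
  | empty => simp
  | cons a m ih =>
    have h1 := ih (fun r hr => hm r (Multiset.mem_cons_of_mem hr))
    have h2 := one_factor a (hm a (Multiset.mem_cons_self a m)) c hc
    rw [Multiset.map_cons, Multiset.prod_cons, norm_mul, mul_pow, Multiset.card_cons,
      Multiset.sum_cons, Complex.add_re]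
    refine (mul_le_mul h2 h1 (by positivity) (by positivity)).trans (le_of_eq ?_)
    push_cast
    rw [pow_succ]
    have e : (2 * ((Multiset.card m : ℝ) + 1) + 2 * (a.re + m.sum.re)) / c - ((Multiset.card m : ℝ) + 1) =
      ((2 + 2 * a.re) / c - 1) + ((2 * (Multiset.card m : ℝ) + 2 * (m.sum).re) / c - Multiset.card m) := by
      field_simp; ring
    rw [e, Real.exp_add]
    ring

/-- The product bound. -/
lemma prod_bound (q : ℂ[X]) (s : ℕ) (hd : q.natDegree ≤ s)
    (h0 : ∀ t : ℂ, ‖t‖ < 1 → q.eval t ≠ 0) (c : ℝ) (hc : 0 < c) :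
    ‖q.eval (-1)‖^2 ≤ ‖q.eval 0‖^2 * (c^s * Real.exp ((2 * s - 2 *
      (q.derivative.eval 0 / q.eval 0).re) / c - s)) := by
  have hq0 : q ≠ 0 := by
    intro h; exact h0 0 (by simp) (by rw [h]; simp)
  have hsp : q.Splits := IsAlgClosed.splits q
  have hr : ∀ r ∈ q.roots, 1 ≤ ‖r‖ := by
    intro r hr
    by_contra hcon
    push Not at hcon
    exact h0 r hcon (Polynomial.isRoot_of_mem_roots hr)
  have hr0 : ∀ r ∈ q.roots, r ≠ 0 := by
    intro r h1 h2
    have := hr r h1
    rw [h2, norm_zero] at this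
    linarith
  have hq := hsp.eq_prod_roots
  have he : ∀ t : ℂ, q.eval t = q.leadingCoeff * (q.roots.map fun r => t - r).prod := by
    intro t
    conv_lhs => rw [hq]
    rw [Polynomial.eval_mul, Polynomial.eval_C, Polynomial.eval_multiset_prod, Multiset.map_map]
    congr 2
    apply Multiset.map_congr rfl
    intro r _
    simp
  obtain ⟨m, hm⟩ : ∃ m, m = q.roots.map fun r => r⁻¹ := ⟨_, rfl⟩
  have hm1 : ∀ w ∈ m, ‖w‖ ≤ 1 := by
    intro w hw
    rw [hm, Multiset.mem_map] at hw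
    obtain ⟨r, hr1, rfl⟩ := hw
    rw [norm_inv]
    exact inv_le_one_of_one_le₀ (hr r hr1)
  have hmc : Multiset.card m ≤ s := by
    rw [hm, Multiset.card_map]
    exact (Polynomial.card_roots' q).trans hd
  have e1 : q.eval (-1) = q.eval 0 * (m.map fun w => 1 + w).prod := by
    rw [he (-1), he 0, mul_assoc, hm, Multiset.map_map, ← Multiset.prod_map_mul]
    congr 2
    apply Multiset.map_congr rfl
    intro r hr1
    have := hr0 r hr1
    simp only [Function.comp]
    field_simp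
    ring
  have e2 : q.derivative.eval 0 / q.eval 0 = -m.sum := by
    rw [hsp.eval_derivative_div_eval_of_ne_zero (h0 0 (by simp)), hm,
      ← Multiset.sum_map_neg', Multiset.map_map]
    congr 1
    apply Multiset.map_congr rfl
    intro r _
    simp only [Function.comp, zero_sub, one_div, inv_neg]
  have h3 := mult_bound c hc m hm1
  rw [e1, norm_mul, mul_pow, e2]
  apply mul_le_mul_of_nonneg_left _ (by positivity)
  refine h3.trans ?_
  obtain ⟨d, hd1⟩ : ∃ d, s = Multiset.card m + d := ⟨s - Multiset.card m, by omega⟩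
  have h4 : 1 ≤ c * Real.exp (2 / c - 1) := by
    have h5 := Real.add_one_le_exp (2 / c - 1)
    calc (1:ℝ) ≤ 2 := by norm_num
      _ = c * (2 / c - 1 + 1) := by field_simp; ring
      _ ≤ _ := mul_le_mul_of_nonneg_left h5 hc.le
  have h5 : 1 ≤ (c * Real.exp (2 / c - 1))^d := one_le_pow₀ h4
  have e3 : c^s * Real.exp ((2 * s - 2 * (-m.sum).re) / c - s) =
      (c^(Multiset.card m) * Real.exp ((2 * (Multiset.card m : ℝ) + 2 * (m.sum).re) / c
        - Multiset.card m)) * (c * Real.exp (2 / c - 1))^d := by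
    rw [hd1, pow_add, mul_pow, ← Real.exp_nat_mul]
    have e4 : (2 * ((Multiset.card m + d : ℕ) : ℝ) - 2 * (-m.sum).re) / c - ((Multiset.card m + d : ℕ) : ℝ)
      = ((2 * (Multiset.card m : ℝ) + 2 * (m.sum).re) / c - Multiset.card m) + (d : ℝ) * (2 / c - 1) := by
      rw [Complex.neg_re]; push_cast; field_simp; ring
    rw [e4, Real.exp_add]
    ring
  rw [e3]
  exact le_mul_of_one_le_right (by positivity) h5

end Pool.Agent.B5.PowR
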