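import Pool.Agent.Lib.MP_b5021c_nt.KO.H89.PowB

/-!
# Board b5, K ODD, PURE BETA, row POW, part C: the power inequality
-/

namespace Pool.Agent.B5.PowR

open Complex Polynomial

/-- The value of the multi-affine polynomial with the coefficients `a`. -/
noncomputable def ma {s : ℕ} (a : Finset (Fin s) → ℂ) (x : Fin s → ℂ) : ℂ :=
  ∑ S, a S * ∏ i ∈ S, x i

lemma ma_zero {s : ℕ} (a : Finset (Fin s) → ℂ) : ma a 0 = a ∅ := by
  classical
  unfold ma
  rw [Finset.sum_eq_single ∅]
  · simp
  · intro S _ hS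
    obtain ⟨i, hi⟩ := Finset.nonempty_iff_ne_empty.mpr hS
    rw [Finset.prod_eq_zero hi (by simp), mul_zero]
  · simp

lemma ma_single {s : ℕ} (a : Finset (Fin s) → ℂ) (i : Fin s) :
    ma a (Pi.single i 1) = a ∅ + a {i} := by
  classical
  unfold ma
  rw [← Finset.add_sum_erase _ _ (Finset.mem_univ ∅)]
  rw [← Finset.add_sum_erase _ _ (show ({i} : Finset (Fin s)) ∈ Finset.univ.erase ∅ by simp)]
  rw [Finset.sum_eq_zero]
  · simp
  · intro S hS
    simp only [Finset.mem_erase, Finset.mem_univ, and_true] at hS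
    obtain ⟨j, hj, hji⟩ : ∃ j ∈ S, j ≠ i := by
      by_contra hcon
      push Not at hcon
      obtain ⟨j, hj⟩ := Finset.nonempty_iff_ne_empty.mpr hS.2
      apply hS.1
      ext k
      simp only [Finset.mem_singleton]
      constructor
      · exact hcon k
      · rintro rfl
        rw [← hcon j hj]; exact hj
    rw [Finset.prod_eq_zero hj (by simp [hji]), mul_zero]

/-- `ma` is affine in each variable. -/
lemma ma_update {s : ℕ} (a : Finset (Fin s) → ℂ) (x : Fin s → ℂ) (i : Fin s) (t : ℂ) :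
    ma a (Function.update x i t) = ma a (Function.update x i 0) +
      (ma a (Function.update x i 1) - ma a (Function.update x i 0)) * t := by
  classical
  unfold ma
  rw [← Finset.sum_sub_distrib, Finset.sum_mul, ← Finset.sum_add_distrib]
  apply Finset.sum_congr rfl
  intro S _
  by_cases hi : i ∈ S
  · rw [← Finset.mul_prod_erase S _ hi, ← Finset.mul_prod_erase S _ hi,
      ← Finset.mul_prod_erase S _ hi]
    have h : ∀ v : ℂ, ∏ j ∈ S.erase i, Function.update x i v j = ∏ j ∈ S.erase i, x j := by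
      intro v
      apply Finset.prod_congr rfl
      intro j hj
      rw [Function.update_of_ne (Finset.ne_of_mem_erase hj)]
    rw [h, h, h]
    simp only [Function.update_self]
    ring
  · have h : ∀ v : ℂ, ∏ j ∈ S, Function.update x i v j = ∏ j ∈ S, x j := by
      intro v
      apply Finset.prod_congr rfl
      intro j hj
      rw [Function.update_of_ne (by rintro rfl; exact hi hj)]
    rw [h, h, h]
    ring

/-- The diagonal. -/
noncomputable def dg {s : ℕ} (a : Finset (Fin s) → ℂ) : ℂ[X] := ∑ S, C (a S) * X ^ S.card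

lemma dg_eval {s : ℕ} (a : Finset (Fin s) → ℂ) (t : ℂ) : (dg a).eval t = ma a (fun _ => t) := by
  unfold dg ma
  rw [Polynomial.eval_finsetSum]
  apply Finset.sum_congr rfl
  intro S _
  simp

lemma dg_deg {s : ℕ} (a : Finset (Fin s) → ℂ) : (dg a).natDegree ≤ s := by
  unfold dg
  apply Polynomial.natDegree_sum_le_of_forall_le
  intro S _
  refine (Polynomial.natDegree_C_mul_X_pow_le _ _).trans ?_
  exact (Finset.card_le_univ S).trans (by simp)

lemma dg_der {s : ℕ} (a : Finset (Fin s) → ℂ) : (dg a).derivative.eval 0 = ∑ i, a {i} := by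
  classical
  unfold dg
  rw [Polynomial.derivative_sum, Polynomial.eval_finsetSum]
  have h1 : ∀ S : Finset (Fin s), (derivative (C (a S) * X ^ S.card)).eval 0 =
      if S.card = 1 then a S else 0 := by
    intro S
    rw [Polynomial.derivative_C_mul_X_pow]
    rcases Nat.lt_or_ge S.card 2 with h | h
    · interval_cases h : S.card
      · simp
      · simp
    · have h2 : S.card - 1 ≠ 0 := by omega
      have h3 : S.card ≠ 1 := by omega
      simp [h2, h3]
  rw [Finset.sum_congr rfl (fun S _ => h1 S), Finset.sum_ite, Finset.sum_const_zero, add_zero]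
  have h2 : (Finset.univ.filter fun S : Finset (Fin s) => S.card = 1) =
      Finset.univ.image (fun i : Fin s => ({i} : Finset (Fin s))) := by
    ext S
    simp only [Finset.mem_filter, Finset.mem_univ, true_and, Finset.mem_image]
    rw [Finset.card_eq_one]
    constructor
    · rintro ⟨i, rfl⟩; exact ⟨i, rfl⟩
    · rintro ⟨i, rfl⟩; exact ⟨i, rfl⟩
  rw [h2, Finset.sum_image]
  intro i _ j _ h
  exact Finset.singleton_injective h

/-- At one point of the circle: part (a). -/
lemma lower_at {s : ℕ} (a : Finset (Fin s) → ℂ) (f z : ℂ) (hz : ‖z‖ = 1)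
    (hst : ∀ (x : Fin s → ℂ) (y0 y1 : ℂ), (∀ i, ‖x i‖ < 1) → ‖y0‖ < 1 → ‖y1‖ < 1 →
      ma a x + z * f * (∏ i, (1 - x i)) * (1 - (1 - y0) * (1 - y1)) ≠ 0)
    (i : Fin s) (hne : ma a (Pi.single i 1) ≠ 0) :
    2 ^ s * ‖f‖ * ‖gp z‖ ≤ ‖ma a (fun _ => -1) - f * 2 ^ s‖ := by
  classical
  by_cases hf : f = 0
  · rw [hf]; simp
  have hz0 : z ≠ 0 := by intro h; rw [h, norm_zero] at hz; exact one_ne_zero hz.symm
  -- the polynomial `ma a` on `x_i = 1`, the other variables `-t`
  obtain ⟨X0, hX0⟩ : ∃ X0 : ℝ → Fin s → ℂ, X0 = fun (t : ℝ) (_ : Fin s) => -(t:ℂ) := ⟨_, rfl⟩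
  obtain ⟨Q, hQ⟩ : ∃ Q : ℂ[X], Q = ∑ S : Finset (Fin s), C (a S) * (-X) ^ (S.erase i).card := ⟨_, rfl⟩
  have hQe : ∀ t : ℝ, ma a (Function.update (X0 t) i 1) = Q.eval (t : ℂ) := by
    intro t
    rw [hQ, Polynomial.eval_finsetSum]
    unfold ma
    apply Finset.sum_congr rfl
    intro S _
    have : ∏ j ∈ S, Function.update (X0 t) i 1 j = (-(t:ℂ)) ^ (S.erase i).card := by
      by_cases hi : i ∈ S
      · rw [← Finset.mul_prod_erase S _ hi, Function.update_self, one_mul,
          Finset.prod_congr rfl (g := fun _ => -(t:ℂ)), Finset.prod_const]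
        intro j hj
        rw [Function.update_of_ne (Finset.ne_of_mem_erase hj), hX0]
      · rw [Finset.erase_eq_of_notMem hi, Finset.prod_congr rfl (g := fun _ => -(t:ℂ)),
          Finset.prod_const]
        intro j hj
        rw [Function.update_of_ne (by rintro rfl; exact hi hj), hX0]
    rw [this]
    simp
  have hQ0 : Q ≠ 0 := by
    intro h
    apply hne
    have h1 := hQe 0
    rw [h, Polynomial.eval_zero] at h1
    have h2 : Function.update (X0 0) i 1 = Pi.single i 1 := by
      ext j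
      by_cases hj : j = i
      · subst hj; simp
      · rw [Function.update_of_ne hj, hX0]; simp [hj]
    rwa [h2] at h1
  -- bound for good parameters
  have hgood : ∀ t : ℝ, 0 ≤ t → t < 1 → Q.eval (t:ℂ) ≠ 0 →
      2 * ‖z * f * (1 + (t:ℂ)) ^ (s-1)‖ * ‖gp z‖ ≤
        ‖ma a (Function.update (X0 t) i (-1)) - 2 * (f * (1 + (t:ℂ)) ^ (s-1))‖ := by
    intro t ht0 ht1 hQt
    have hprod : ∀ v : ℂ, ∏ j, (1 - Function.update (X0 t) i v j) = (1 - v) * (1 + (t:ℂ)) ^ (s-1) := by
      intro v
      rw [← Finset.mul_prod_erase _ _ (Finset.mem_univ i), Function.update_self,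
        Finset.prod_congr rfl (g := fun _ => 1 + (t:ℂ)), Finset.prod_const]
      · rw [Finset.card_erase_of_mem (Finset.mem_univ i)]; simp
      · intro j hj
        rw [Function.update_of_ne (Finset.ne_of_mem_erase hj), hX0]; ring
    have h1t : (1 + (t:ℂ)) ≠ 0 := by
      intro h
      have := congrArg Complex.re h
      simp at this
      linarith
    obtain ⟨b, hb⟩ : ∃ b, b = z * f * (1 + (t:ℂ)) ^ (s-1) := ⟨_, rfl⟩
    have hb0 : b ≠ 0 := by rw [hb]; exact mul_ne_zero (mul_ne_zero hz0 hf) (pow_ne_zero _ h1t)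
    obtain ⟨m0, hm0⟩ : ∃ m0, m0 = ma a (Function.update (X0 t) i 0) := ⟨_, rfl⟩
    obtain ⟨m1, hm1⟩ : ∃ m1, m1 = ma a (Function.update (X0 t) i 1) := ⟨_, rfl⟩
    have hup : ∀ v : ℂ, ma a (Function.update (X0 t) i v) = m0 + (m1 - m0) * v := by
      intro v; rw [ma_update, ← hm0, ← hm1]
    have hne1 : m1 ≠ 0 := by rw [hm1, hQe]; exact hQt
    have h := half_plane (m0 + b) (m1 - m0 - b) b z hz hb0 (by
      intro x y0 y1 hx hy0 hy1 hcon
      apply hst (Function.update (X0 t) i x) y0 y1 _ hy0 hy1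
      · rw [hprod, hup]
        have e : m0 + (m1 - m0) * x + z * f * ((1 - x) * (1 + (t:ℂ)) ^ (s-1)) *
          (1 - (1 - y0) * (1 - y1)) = (m0 + b + (m1 - m0 - b) * x) - b * (1 - x) * ((1-y0)*(1-y1)) := by
          rw [hb]; ring
        rw [e, hcon, sub_self]
      · intro j
        by_cases hj : j = i
        · rw [hj, Function.update_self]; exact hx
        · rw [Function.update_of_ne hj, hX0, norm_neg, Complex.norm_real, Real.norm_of_nonneg ht0]
          exact ht1) (by
        have : m0 + b + (m1 - m0 - b) = m1 := by ring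
        rw [this]; exact hne1)
    rw [← hb]
    refine h.trans (le_of_eq ?_)
    congr 1
    rw [hup]
    have hbz : b * z⁻¹ = f * (1 + (t:ℂ)) ^ (s-1) := by
      rw [hb]; field_simp
    linear_combination (-2) * hbz
  -- the limit t -> 1
  have hc1 : Continuous fun t : ℝ => 2 * ‖z * f * (1 + (t:ℂ)) ^ (s-1)‖ * ‖gp z‖ := by fun_prop
  have hc2 : Continuous fun t : ℝ =>
      ‖ma a (Function.update (X0 t) i (-1)) - 2 * (f * (1 + (t:ℂ)) ^ (s-1))‖ := by
    apply Continuous.norm
    apply Continuous.sub _ (by fun_prop)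
    unfold ma
    apply continuous_finsetSum
    intro S _
    apply continuous_const.mul
    apply continuous_finsetProd
    intro j _
    by_cases hj : j = i
    · rw [hj]; simp only [Function.update_self]; exact continuous_const
    · simp only [Function.update_of_ne hj]
      rw [hX0]
      fun_prop
  have hlim := le_of_tendsto_of_tendsto ((hc1.tendsto 1).mono_left (nhdsWithin_le_nhds (s := Set.Iio 1)))
    ((hc2.tendsto 1).mono_left (nhdsWithin_le_nhds (s := Set.Iio 1))) (by
      have hfin : {t : ℝ | Q.eval (t:ℂ) = 0}.Finite := by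
        have h1 : {c : ℂ | Q.eval c = 0}.Finite := by
          refine (Q.roots.toFinset.finite_toSet).subset ?_
          intro c hc
          simp only [Finset.mem_coe, Multiset.mem_toFinset]
          exact (Polynomial.mem_roots hQ0).mpr hc
        exact h1.preimage (Complex.ofReal_injective.injOn)
      have h2 : {t : ℝ | Q.eval (t:ℂ) = 0}ᶜ ∈ nhdsWithin (1:ℝ) (Set.Iio 1) := by
        have h3 : ({t : ℝ | Q.eval (t:ℂ) = 0} \ {1})ᶜ ∈ nhds (1:ℝ) := by
          apply ((hfin.subset Set.sdiff_subset).isClosed.isOpen_compl).mem_nhds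
          simp
        filter_upwards [nhdsWithin_le_nhds h3, self_mem_nhdsWithin] with t ht1 ht2 ht3
        apply ht1
        exact ⟨ht3, ne_of_lt ht2⟩
      have h4 : Set.Ioo (0:ℝ) 1 ∈ nhdsWithin (1:ℝ) (Set.Iio 1) := Ioo_mem_nhdsLT (by norm_num)
      filter_upwards [h2, h4] with t ht1 ht2
      exact hgood t ht2.1.le ht2.2 ht1)
  have hs : s ≠ 0 := by rintro rfl; exact i.elim0
  have e1 : (2:ℝ) * ‖z * f * (1 + ((1:ℝ):ℂ)) ^ (s-1)‖ * ‖gp z‖ = 2 ^ s * ‖f‖ * ‖gp z‖ := by
    rw [norm_mul, norm_mul, hz, norm_pow]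
    have : ‖(1:ℂ) + ((1:ℝ):ℂ)‖ = 2 := by norm_num
    rw [this]
    obtain ⟨r, rfl⟩ := Nat.exists_eq_succ_of_ne_zero hs
    simp only [Nat.succ_eq_add_one, Nat.add_sub_cancel]
    ring
  have e2 : ma a (Function.update (X0 1) i (-1)) - 2 * (f * (1 + ((1:ℝ):ℂ)) ^ (s-1)) =
      ma a (fun _ => -1) - f * 2 ^ s := by
    have h1 : Function.update (X0 1) i (-1) = fun _ => (-1:ℂ) := by
      ext j
      by_cases hj : j = i
      · rw [hj]; simp
      · rw [Function.update_of_ne hj, hX0]; simp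
    rw [h1]
    obtain ⟨r, rfl⟩ := Nat.exists_eq_succ_of_ne_zero hs
    simp only [Nat.succ_eq_add_one, Nat.add_sub_cancel]
    push_cast
    ring
  rw [e1, e2] at hlim
  exact hlim

/-- At one point of the circle: part (b). `e0`, `es` : the values of `E_0` and of `∑ E^i_0`. -/
lemma upper_at {s : ℕ} (a : Finset (Fin s) → ℂ) (f z e0 : ℂ) (ei : Fin s → ℂ) (hz : ‖z‖ = 1)
    (hst : ∀ (x : Fin s → ℂ) (y0 y1 : ℂ), (∀ i, ‖x i‖ < 1) → ‖y0‖ < 1 → ‖y1‖ < 1 →
      ma a x + z * f * (∏ i, (1 - x i)) * (1 - (1 - y0) * (1 - y1)) ≠ 0)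
    (h0 : ma a 0 - f = -z * e0) (hi : ∀ i, ma a (Pi.single i 1) = -z * ei i) (he : e0 ≠ 0)
    (c : ℝ) (hc : 0 < c) :
    ‖ma a (fun _ => -1) - f * 2 ^ s‖^2 ≤ ‖e0‖^2 * (c^s * Real.exp ((4 * s - 2 *
      ((∑ i, ei i) / e0).re) / c - s)) := by
  have hz0 : z ≠ 0 := by intro h; rw [h, norm_zero] at hz; exact one_ne_zero hz.symm
  obtain ⟨P, hP⟩ : ∃ P : ℝ → ℂ[X], P = fun (r : ℝ) => dg a - C ((r:ℂ) * f) * (1 - X) ^ s := ⟨_, rfl⟩
  have hPe : ∀ (r : ℝ) (t : ℂ), (P r).eval t = ma a (fun _ => t) - r * f * (1 - t) ^ s := by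
    intro r t
    rw [hP]; simp [dg_eval]
  have hPd : ∀ r, (P r).natDegree ≤ s := by
    intro r
    rw [hP]
    refine (Polynomial.natDegree_sub_le _ _).trans (max_le (dg_deg a) ?_)
    refine (Polynomial.natDegree_C_mul_le _ _).trans ?_
    refine (Polynomial.natDegree_pow_le).trans ?_
    have : (1 - X : ℂ[X]).natDegree ≤ 1 := by
      refine (Polynomial.natDegree_sub_le _ _).trans (by simp)
    calc s * (1 - X : ℂ[X]).natDegree ≤ s * 1 := Nat.mul_le_mul_left _ this
      _ = s := mul_one s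
  have hPr : ∀ r : ℝ, (P r).derivative.eval 0 = ∑ i, a {i} + r * f * s := by
    intro r
    rw [hP]
    simp [dg_der, Polynomial.derivative_pow]
  have hP0 : (P 1).eval 0 = -z * e0 := by
    rw [hPe, ← h0]
    have : (fun _ => (0:ℂ) : Fin s → ℂ) = 0 := rfl
    rw [this]; simp
  have hP0' : (P 1).eval 0 ≠ 0 := by
    rw [hP0]; exact mul_ne_zero (neg_ne_zero.mpr hz0) he
  have hgood : ∀ r : ℝ, 0 ≤ r → r < 1 → ‖(P r).eval (-1)‖^2 ≤ ‖(P r).eval 0‖^2 * (c^s * Real.exp
      ((2 * s - 2 * ((P r).derivative.eval 0 / (P r).eval 0).re) / c - s)) := by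
    intro r hr0 hr1
    apply prod_bound (P r) s (hPd r) _ c hc
    intro t ht
    rw [hPe]
    have h1 := hst (fun _ => t) (-r * z⁻¹) 0 (fun _ => ht) (by
      rw [norm_mul, norm_neg, norm_inv, hz, Complex.norm_real, Real.norm_of_nonneg hr0]; simpa using hr1)
      (by simp)
    intro h2
    apply h1
    refine Eq.trans ?_ h2
    simp only [Finset.prod_const, Finset.card_univ, Fintype.card_fin]
    field_simp
    ring
  have hcont : ∀ t : ℂ, Continuous fun r : ℝ => (P r).eval t := by
    intro t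
    simp only [hPe]
    fun_prop
  have hcont2 : Continuous fun r : ℝ => (P r).derivative.eval 0 := by
    simp only [hPr]
    fun_prop
  have ht1 : Filter.Tendsto (fun r : ℝ => ‖(P r).eval (-1)‖^2) (nhdsWithin 1 (Set.Iio 1))
      (nhds (‖(P 1).eval (-1)‖^2)) :=
    (((hcont (-1)).norm.pow 2).tendsto 1).mono_left nhdsWithin_le_nhds
  have ht2 : Filter.Tendsto (fun r : ℝ => ‖(P r).eval 0‖^2 * (c^s * Real.exp
      ((2 * s - 2 * ((P r).derivative.eval 0 / (P r).eval 0).re) / c - s)))
      (nhdsWithin 1 (Set.Iio 1)) (nhds (‖(P 1).eval 0‖^2 * (c^s * Real.exp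
      ((2 * s - 2 * ((P 1).derivative.eval 0 / (P 1).eval 0).re) / c - s)))) := by
    have h1 : ContinuousAt (fun r : ℝ => (P r).derivative.eval 0 / (P r).eval 0) 1 :=
      hcont2.continuousAt.div (hcont 0).continuousAt hP0'
    have h2 : ContinuousAt (fun r : ℝ => ((P r).derivative.eval 0 / (P r).eval 0).re) 1 :=
      Complex.continuous_re.continuousAt.comp h1
    have h3 : ContinuousAt (fun r : ℝ => ‖(P r).eval 0‖^2 * (c^s * Real.exp
      ((2 * s - 2 * ((P r).derivative.eval 0 / (P r).eval 0).re) / c - s))) 1 := by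
      apply ((hcont 0).norm.pow 2).continuousAt.mul
      apply continuousAt_const.mul
      apply Real.continuous_exp.continuousAt.comp
      exact ((continuousAt_const.sub (continuousAt_const.mul h2)).div_const c).sub continuousAt_const
    exact h3.tendsto.mono_left nhdsWithin_le_nhds
  have hlim := le_of_tendsto_of_tendsto ht1 ht2 (by
    have h4 : Set.Ioo (0:ℝ) 1 ∈ nhdsWithin (1:ℝ) (Set.Iio 1) := Ioo_mem_nhdsLT (by norm_num)
    filter_upwards [h4] with r hr
    exact hgood r hr.1.le hr.2)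
  have e1 : (P 1).eval (-1) = ma a (fun _ => -1) - f * 2 ^ s := by
    rw [hPe]; norm_num
  have e2 : ‖(P 1).eval 0‖ = ‖e0‖ := by
    rw [hP0, norm_mul, norm_neg, hz, one_mul]
  have e3 : (P 1).derivative.eval 0 / (P 1).eval 0 = (∑ i, ei i) / e0 - s := by
    rw [hPr, hP0]
    have h5 : ∀ i, a {i} = -z * ei i - a ∅ := by
      intro i
      rw [← hi i, ma_single]; ring
    have h6 : a ∅ = f - z * e0 := by
      rw [ma_zero] at h0; linear_combination h0
    simp only [h5, h6]
    rw [Finset.sum_sub_distrib, Finset.sum_const, ← Finset.mul_sum]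
    simp only [Finset.card_univ, Fintype.card_fin, nsmul_eq_mul]
    have hze : z * e0 ≠ 0 := mul_ne_zero hz0 he
    field_simp
    push_cast
    ring
  rw [e1, e2, e3] at hlim
  refine hlim.trans (le_of_eq ?_)
  congr 3
  rw [Complex.sub_re]
  simp
  ring

end Pool.Agent.B5.PowR
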