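import Pool.Agent.Lib.MP_b5021c_nt.KO.H89.PowC

/-!
# Board b5, K ODD, PURE BETA, row POW' (helper62): `∑ E^i_0(0) ≤ 2 E_0(0) log E_0(0)`, `N ≥ 4`
-/

namespace Pool.Agent.B5.PowR

open Complex Polynomial

lemma hasDerivAt_sumlog (m : Multiset ℂ) (hm : ∀ w ∈ m, ‖w‖ ≤ 1) (t : ℂ) (ht : ‖t‖ < 1) :
    HasDerivAt (fun t : ℂ => (m.map fun w => log (1 - t * w)).sum)
      ((m.map fun w => -w / (1 - t * w)).sum) t := by
  induction m using Multiset.induction_on with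
  | empty => simpa using hasDerivAt_const t (0:ℂ)
  | cons a m ih =>
    have h1 := ih (fun w hw => hm w (Multiset.mem_cons_of_mem hw))
    have ha := hm a (Multiset.mem_cons_self a m)
    have h2 : (1 - t * a) ∈ slitPlane := by
      rw [sub_eq_add_neg]
      apply Complex.mem_slitPlane_of_norm_lt_one
      rw [norm_neg, norm_mul]
      nlinarith [norm_nonneg t, norm_nonneg a]
    have h3 : HasDerivAt (fun t : ℂ => 1 - t * a) (-a) t := by
      simpa using ((hasDerivAt_id t).mul_const a).const_sub 1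
    have h4 := h3.clog h2
    simp only [Multiset.map_cons, Multiset.sum_cons]
    exact h4.fun_add h1

lemma re_sumlog (m : Multiset ℂ) (hm : ∀ w ∈ m, ‖w‖ ≤ 1) (t : ℂ) (ht : ‖t‖ < 1) :
    ((m.map fun w => log (1 - t * w)).sum).re = Real.log ‖(m.map fun w => 1 - t * w).prod‖ := by
  induction m using Multiset.induction_on with
  | empty => simp
  | cons a m ih =>
    have hne : ∀ w : ℂ, ‖w‖ ≤ 1 → 1 - t * w ≠ 0 := by
      intro w hw h
      have h1 : t * w = 1 := (sub_eq_zero.mp h).symm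
      have h2 := congrArg norm h1
      rw [norm_mul, norm_one] at h2
      nlinarith [norm_nonneg t, norm_nonneg w]
    have hp : (m.map fun w => 1 - t * w).prod ≠ 0 := by
      rw [Ne, Multiset.prod_eq_zero_iff, Multiset.mem_map]
      rintro ⟨w, hw, h0⟩
      exact hne w (hm w (Multiset.mem_cons_of_mem hw)) h0
    rw [Multiset.map_cons, Multiset.sum_cons, Multiset.map_cons, Multiset.prod_cons, Complex.add_re,
      ih (fun w hw => hm w (Multiset.mem_cons_of_mem hw)), Complex.log_re, norm_mul,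
      Real.log_mul (norm_ne_zero_iff.mpr (hne a (hm a (Multiset.mem_cons_self a m))))
        (norm_ne_zero_iff.mpr hp)]

/-- The Schwarz lemma for `log (q(t) / (1-t)^s)`. -/
lemma schwarz_bound (q : ℂ[X]) (s : ℕ) (a : ℝ) (ha : 0 < a)
    (h : ∀ t : ℂ, ‖t‖ < 1 → a * ‖1 - t‖ ^ s ≤ ‖q.eval t‖) :
    (q.derivative.eval 0 / q.eval 0 + s).re ≤ 2 * Real.log (‖q.eval 0‖ / a) := by
  have hne1 : ∀ t : ℂ, ‖t‖ < 1 → 1 - t ≠ 0 := by
    intro t ht h
    rw [← sub_eq_zero.mp h, norm_one] at ht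
    exact lt_irrefl _ ht
  have h0 : ∀ t : ℂ, ‖t‖ < 1 → q.eval t ≠ 0 := by
    intro t ht h1
    have h2 := h t ht
    rw [h1, norm_zero] at h2
    have h3 : 0 < a * ‖1 - t‖ ^ s := mul_pos ha (pow_pos (norm_pos_iff.mpr (hne1 t ht)) s)
    linarith
  have hq0 : q ≠ 0 := by
    intro h1; exact h0 0 (by simp) (by rw [h1]; simp)
  have hsp : q.Splits := IsAlgClosed.splits q
  have hr : ∀ r ∈ q.roots, 1 ≤ ‖r‖ := by
    intro r hr
    by_contra hcon
    push Not at hcon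
    exact h0 r hcon (Polynomial.isRoot_of_mem_roots hr)
  have hr0 : ∀ r ∈ q.roots, r ≠ 0 := by
    intro r h1 h2
    have := hr r h1
    rw [h2, norm_zero] at this
    linarith
  have hq := hsp.eq_prod_roots
  have he : ∀ t : ℂ, q.eval t = q.leadingCoeff * (q.roots.map fun r => t - r).prod := by
    intro t
    conv_lhs => rw [hq]
    rw [Polynomial.eval_mul, Polynomial.eval_C, Polynomial.eval_multiset_prod, Multiset.map_map]
    congr 2
    apply Multiset.map_congr rfl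
    intro r _
    simp
  obtain ⟨m, hm⟩ : ∃ m, m = q.roots.map fun r => r⁻¹ := ⟨_, rfl⟩
  have hm1 : ∀ w ∈ m, ‖w‖ ≤ 1 := by
    intro w hw
    rw [hm, Multiset.mem_map] at hw
    obtain ⟨r, hr1, rfl⟩ := hw
    rw [norm_inv]
    exact inv_le_one_of_one_le₀ (hr r hr1)
  have e1 : ∀ t : ℂ, q.eval t = q.eval 0 * (m.map fun w => 1 - t * w).prod := by
    intro t
    rw [he t, he 0, mul_assoc, hm, Multiset.map_map, ← Multiset.prod_map_mul]
    congr 2
    apply Multiset.map_congr rfl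
    intro r hr1
    have := hr0 r hr1
    simp only [Function.comp]
    field_simp
    ring
  have e2 : q.derivative.eval 0 / q.eval 0 = -m.sum := by
    rw [hsp.eval_derivative_div_eval_of_ne_zero (h0 0 (by simp)), hm,
      ← Multiset.sum_map_neg', Multiset.map_map]
    congr 1
    apply Multiset.map_congr rfl
    intro r _
    simp only [Function.comp, zero_sub, one_div, inv_neg]
  have hP0 : 0 < ‖q.eval 0‖ := norm_pos_iff.mpr (h0 0 (by simp))
  -- the logarithm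
  obtain ⟨Lf, hL⟩ : ∃ Lf : ℂ → ℂ, Lf = fun t => s * log (1 - t) - (m.map fun w => log (1 - t * w)).sum := ⟨_, rfl⟩
  have hder : ∀ t : ℂ, ‖t‖ < 1 → HasDerivAt Lf (s * (-1 / (1 - t)) - (m.map fun w => -w / (1 - t * w)).sum) t := by
    intro t ht
    rw [hL]
    apply HasDerivAt.sub _ (hasDerivAt_sumlog m hm1 t ht)
    have h2 : (1 - t) ∈ slitPlane := by
      rw [sub_eq_add_neg]
      apply Complex.mem_slitPlane_of_norm_lt_one
      rwa [norm_neg]
    have h3 : HasDerivAt (fun t : ℂ => 1 - t) (-1) t := by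
      simpa using (hasDerivAt_id t).const_sub 1
    exact (h3.clog h2).const_mul (s:ℂ)
  have hre : ∀ t : ℂ, ‖t‖ < 1 → (Lf t).re ≤ Real.log (‖q.eval 0‖ / a) := by
    intro t ht
    rw [hL]
    simp only
    rw [Complex.sub_re, re_sumlog m hm1 t ht]
    have h2 : ((s:ℂ) * log (1 - t)).re = s * Real.log ‖1 - t‖ := by
      rw [show ((s:ℂ)) = ((s:ℝ):ℂ) by simp, Complex.re_ofReal_mul, Complex.log_re]
    rw [h2]
    have h3 := h t ht
    have h1t : 0 < ‖1 - t‖ := norm_pos_iff.mpr (hne1 t ht)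
    have hpm : 0 < ‖(m.map fun w => 1 - t * w).prod‖ := by
      rw [norm_pos_iff]
      intro h4
      exact h0 t ht (by rw [e1 t, h4, mul_zero])
    rw [e1 t, norm_mul] at h3
    have h4 := Real.log_le_log (by positivity) h3
    rw [Real.log_mul ha.ne' (by positivity), Real.log_pow, Real.log_mul hP0.ne' hpm.ne'] at h4
    rw [Real.log_div hP0.ne' ha.ne']
    linarith
  have hL0 : Lf 0 = 0 := by rw [hL]; simp
  have hM0 : 0 ≤ Real.log (‖q.eval 0‖ / a) := by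
    have := hre 0 (by simp)
    rwa [hL0, Complex.zero_re] at this
  have hd0 := hder 0 (by simp)
  have hval : (s * (-1 / (1 - (0:ℂ))) - (m.map fun w => -w / (1 - 0 * w)).sum) = -(q.derivative.eval 0 / q.eval 0 + s) := by
    rw [e2]
    have : (m.map fun w => -w / (1 - 0 * w)).sum = -m.sum := by
      rw [← Multiset.sum_map_neg']
      congr 1
      apply Multiset.map_congr rfl
      intro w _; simp
    rw [this]
    simp
  rw [hval] at hd0
  -- Borel-Caratheodory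
  have hbc : ∀ e : ℝ, 0 < e → ‖q.derivative.eval 0 / q.eval 0 + (s:ℂ)‖ ≤
      2 * (Real.log (‖q.eval 0‖ / a) + e) := by
    intro e he
    have hM : 0 < Real.log (‖q.eval 0‖ / a) + e := by linarith
    have hb : ∀ t : ℂ, t ∈ Metric.ball (0:ℂ) 1 → ‖Lf t‖ ≤ 2 * (Real.log (‖q.eval 0‖ / a) + e) * ‖t‖ / (1 - ‖t‖) := by
      intro t ht
      apply Complex.borelCaratheodory_zero hM (f := Lf) (R := 1) _ _ one_pos ht hL0
      · intro x hx
        exact (hder x (mem_ball_zero_iff.mp hx)).differentiableAt.differentiableWithinAt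
      · intro x hx
        have := hre x (mem_ball_zero_iff.mp hx)
        show (Lf x).re ≤ _
        linarith
    have hslope := hd0.tendsto_slope_zero.norm
    rw [norm_neg] at hslope
    have hc : Filter.Tendsto (fun t : ℂ => 2 * (Real.log (‖q.eval 0‖ / a) + e) / (1 - ‖t‖))
        (nhdsWithin 0 {0}ᶜ) (nhds (2 * (Real.log (‖q.eval 0‖ / a) + e) / (1 - ‖(0:ℂ)‖))) := by
      apply Filter.Tendsto.mono_left _ nhdsWithin_le_nhds
      apply ContinuousAt.tendsto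
      apply ContinuousAt.div continuousAt_const (by fun_prop)
      simp
    have hle := le_of_tendsto_of_tendsto hslope hc (by
      have h5 : Metric.ball (0:ℂ) 1 ∈ nhdsWithin (0:ℂ) {0}ᶜ := nhdsWithin_le_nhds (Metric.ball_mem_nhds 0 one_pos)
      filter_upwards [h5, self_mem_nhdsWithin] with t ht1 ht2
      have ht3 : 0 < ‖t‖ := norm_pos_iff.mpr ht2
      have ht4 : 0 < 1 - ‖t‖ := by linarith [mem_ball_zero_iff.mp ht1]
      have h6 := hb t ht1
      rw [zero_add, hL0, sub_zero, norm_smul, norm_inv, le_div_iff₀ ht4]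
      rw [le_div_iff₀ ht4] at h6
      have h7 : ‖t‖⁻¹ * ‖Lf t‖ * (1 - ‖t‖) = ‖t‖⁻¹ * (‖Lf t‖ * (1 - ‖t‖)) := by ring
      rw [h7]
      calc ‖t‖⁻¹ * (‖Lf t‖ * (1 - ‖t‖)) ≤ ‖t‖⁻¹ * (2 * (Real.log (‖q.eval 0‖ / a) + e) * ‖t‖) :=
            mul_le_mul_of_nonneg_left h6 (inv_nonneg.mpr ht3.le)
        _ = 2 * (Real.log (‖q.eval 0‖ / a) + e) := by field_simp)
    simpa using hle
  have hfin : ‖q.derivative.eval 0 / q.eval 0 + (s:ℂ)‖ ≤ 2 * Real.log (‖q.eval 0‖ / a) := by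
    apply le_of_forall_pos_le_add
    intro e he
    have := hbc (e/2) (by linarith)
    linarith
  exact (Complex.re_le_norm _).trans hfin

/-- At one point of the circle. -/
lemma point_bound {s : ℕ} (a : Finset (Fin s) → ℂ) (f z e0 : ℂ) (ei : Fin s → ℂ) (hz : ‖z‖ = 1)
    (hst : ∀ (x : Fin s → ℂ) (y0 y1 : ℂ), (∀ i, ‖x i‖ < 1) → ‖y0‖ < 1 → ‖y1‖ < 1 →
      ma a x + z * f * (∏ i, (1 - x i)) * (1 - (1 - y0) * (1 - y1)) ≠ 0)
    (h0 : ma a 0 - f = -z * e0) (hi : ∀ i, ma a (Pi.single i 1) = -z * ei i) (he : e0 ≠ 0) :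
    (‖1 + z‖ * ‖f‖ / ‖e0‖) ^ 2 * Real.exp (((∑ i, ei i) / e0).re) ≤ 1 := by
  have hz0 : z ≠ 0 := by intro h; rw [h, norm_zero] at hz; exact one_ne_zero hz.symm
  by_cases hza : ‖1 + z‖ * ‖f‖ = 0
  · rw [hza]; simp
  have hpos : 0 < ‖1 + z‖ * ‖f‖ := lt_of_le_of_ne (by positivity) (Ne.symm hza)
  obtain ⟨P, hP⟩ : ∃ P : ℂ[X], P = dg a - C f * (1 - X) ^ s := ⟨_, rfl⟩
  have hPe : ∀ t : ℂ, P.eval t = ma a (fun _ => t) - f * (1 - t) ^ s := by
    intro t
    rw [hP]; simp [dg_eval]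
  have hPr : P.derivative.eval 0 = ∑ i, a {i} + f * s := by
    rw [hP]
    simp [dg_der, Polynomial.derivative_pow]
  have hP0 : P.eval 0 = -z * e0 := by
    rw [hPe, ← h0]
    have : (fun _ => (0:ℂ) : Fin s → ℂ) = 0 := rfl
    rw [this]; simp
  have hlow : ∀ t : ℂ, ‖t‖ < 1 → (‖1 + z‖ * ‖f‖) * ‖1 - t‖ ^ s ≤ ‖P.eval t‖ := by
    intro t ht
    rw [hPe]
    -- for every y in the open disc and every r < 1: no zero
    have h1 : ∀ r : ℝ, 0 ≤ r → r < 1 → ∀ y : ℂ, ‖y‖ < 1 →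
        (ma a (fun _ => t) - r * f * (1 - t) ^ s) + (z + r) * f * (1 - t) ^ s * y ≠ 0 := by
      intro r hr0 hr1 y hy h2
      apply hst (fun _ => t) (-r * z⁻¹) y (fun _ => ht) (by
        rw [norm_mul, norm_neg, norm_inv, hz, Complex.norm_real, Real.norm_of_nonneg hr0]
        simpa using hr1) hy
      refine Eq.trans ?_ h2
      simp only [Finset.prod_const, Finset.card_univ, Fintype.card_fin]
      field_simp
      ring
    have h2 : ∀ r : ℝ, 0 ≤ r → r < 1 → ‖(z + r) * f * (1 - t) ^ s‖ ≤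
        ‖ma a (fun _ => t) - r * f * (1 - t) ^ s‖ := by
      intro r hr0 hr1
      by_contra hcon
      push Not at hcon
      have hB : (z + r) * f * (1 - t) ^ s ≠ 0 := by
        intro h3
        rw [h3, norm_zero] at hcon
        exact absurd hcon (not_lt.mpr (norm_nonneg _))
      apply h1 r hr0 hr1 (-(ma a (fun _ => t) - r * f * (1 - t) ^ s) / ((z + r) * f * (1 - t) ^ s))
      · rw [norm_div, norm_neg, div_lt_one (norm_pos_iff.mpr hB)]
        exact hcon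
      · rw [mul_div_assoc', mul_div_cancel_left₀ _ hB]
        ring
    have hc1 : Continuous fun r : ℝ => ‖(z + r) * f * (1 - t) ^ s‖ := by fun_prop
    have hc2 : Continuous fun r : ℝ => ‖ma a (fun _ => t) - r * f * (1 - t) ^ s‖ := by fun_prop
    have h3 := le_of_tendsto_of_tendsto ((hc1.tendsto 1).mono_left (nhdsWithin_le_nhds (s := Set.Iio 1)))
      ((hc2.tendsto 1).mono_left (nhdsWithin_le_nhds (s := Set.Iio 1))) (by
        have h4 : Set.Ioo (0:ℝ) 1 ∈ nhdsWithin (1:ℝ) (Set.Iio 1) := Ioo_mem_nhdsLT (by norm_num)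
        filter_upwards [h4] with r hr
        exact h2 r hr.1.le hr.2)
    have e1 : ‖(z + ((1:ℝ):ℂ)) * f * (1 - t) ^ s‖ = (‖1 + z‖ * ‖f‖) * ‖1 - t‖ ^ s := by
      rw [norm_mul, norm_mul, norm_pow]
      congr 3
      push_cast
      ring
    rw [e1] at h3
    simpa using h3
  have hsch := schwarz_bound P s _ hpos hlow
  have e3 : P.derivative.eval 0 / P.eval 0 + s = (∑ i, ei i) / e0 := by
    rw [hPr, hP0]
    have h5 : ∀ i, a {i} = -z * ei i - a ∅ := by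
      intro i
      rw [← hi i, ma_single]; ring
    have h6 : a ∅ = f - z * e0 := by
      rw [ma_zero] at h0; linear_combination h0
    simp only [h5, h6]
    rw [Finset.sum_sub_distrib, Finset.sum_const, ← Finset.mul_sum]
    simp only [Finset.card_univ, Fintype.card_fin, nsmul_eq_mul]
    have hze : z * e0 ≠ 0 := mul_ne_zero hz0 he
    field_simp
    ring
  have e4 : ‖P.eval 0‖ = ‖e0‖ := by rw [hP0, norm_mul, norm_neg, hz, one_mul]
  rw [e3, e4] at hsch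
  have he0 : 0 < ‖e0‖ := norm_pos_iff.mpr he
  have h7 : Real.exp (((∑ i, ei i) / e0).re) ≤ (‖e0‖ / (‖1 + z‖ * ‖f‖)) ^ 2 := by
    calc Real.exp (((∑ i, ei i) / e0).re) ≤ Real.exp (2 * Real.log (‖e0‖ / (‖1 + z‖ * ‖f‖))) :=
          Real.exp_le_exp.mpr hsch
      _ = (‖e0‖ / (‖1 + z‖ * ‖f‖)) ^ 2 := by
          rw [two_mul, Real.exp_add, Real.exp_log (by positivity)]; ring
  calc (‖1 + z‖ * ‖f‖ / ‖e0‖) ^ 2 * Real.exp (((∑ i, ei i) / e0).re) ≤
      (‖1 + z‖ * ‖f‖ / ‖e0‖) ^ 2 * (‖e0‖ / (‖1 + z‖ * ‖f‖)) ^ 2 :=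
        mul_le_mul_of_nonneg_left h7 (by positivity)
    _ = 1 := by
        rw [← mul_pow, div_mul_div_comm, mul_comm ‖e0‖, div_self (mul_pos hpos he0).ne', one_pow]

/-- Row POW', general form: `∑ E^i_0(0) ≤ 2 E_0(0) log E_0(0)`. -/
theorem pow_general (s : ℕ) (f E0 : ℤ[X]) (Ei : Fin s → ℤ[X])
    (hst : ∀ z : ℂ, ‖z‖ = 1 → ∃ a : Finset (Fin s) → ℂ,
      (∀ (x : Fin s → ℂ) (y0 y1 : ℂ), (∀ i, ‖x i‖ < 1) → ‖y0‖ < 1 → ‖y1‖ < 1 →
        ma a x + z * aeval z f * (∏ i, (1 - x i)) * (1 - (1 - y0) * (1 - y1)) ≠ 0) ∧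
      ma a 0 - aeval z f = -z * aeval z E0 ∧
      ∀ i, ma a (Pi.single i 1) = -z * aeval z (Ei i))
    (hf : f.coeff 0 = 1) (h0 : 0 < E0.coeff 0)
    (hz : ∀ z : ℂ, ‖z‖ ≤ 1 → (aeval z E0 : ℂ) ≠ 0) :
    ((∑ i, (Ei i).coeff 0 : ℤ) : ℝ) ≤ 2 * (E0.coeff 0 : ℝ) * Real.log (E0.coeff 0 : ℝ) := by
  classical
  obtain ⟨Ps, hPs⟩ : ∃ Ps : ℂ → ℂ, Ps = fun z => ((1 + z) * aeval z f / aeval z E0)^2 *
      exp ((∑ i, aeval z (Ei i)) / aeval z E0) := ⟨_, rfl⟩
  have hda : ∀ q : ℤ[X], Differentiable ℂ (fun z : ℂ => (aeval z q : ℂ)) := fun q =>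
    q.differentiable_aeval
  have hcont : ∀ z : ℂ, ‖z‖ ≤ 1 → DifferentiableAt ℂ Ps z := by
    intro z h1
    have h2 := hz z h1
    rw [hPs]
    apply DifferentiableAt.mul
    · apply DifferentiableAt.pow
      exact (((differentiableAt_const _).add differentiableAt_id).mul (hda f z)).div (hda E0 z) h2
    · apply DifferentiableAt.cexp
      exact (DifferentiableAt.fun_sum (fun i _ => hda (Ei i) z)).div (hda E0 z) h2
  have hall : ∀ z : ℂ, ‖z‖ = 1 → ‖Ps z‖ ≤ 1 := by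
    intro z h1
    obtain ⟨a, ha1, ha2, ha3⟩ := hst z h1
    have hE := hz z h1.le
    have h3 := point_bound a (aeval z f) z (aeval z E0) (fun i => aeval z (Ei i)) h1 ha1 ha2 ha3 hE
    rw [hPs]
    simp only
    rw [norm_mul, norm_pow, norm_div, norm_mul, Complex.norm_exp]
    exact h3
  have hmax : ‖Ps 0‖ ≤ 1 := by
    have hfr : frontier (Metric.ball (0:ℂ) 1) = Metric.sphere 0 1 := frontier_ball 0 one_ne_zero
    have hcl : closure (Metric.ball (0:ℂ) 1) = Metric.closedBall 0 1 := closure_ball 0 one_ne_zero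
    have hd : DiffContOnCl ℂ Ps (Metric.ball (0:ℂ) 1) := by
      apply DifferentiableOn.diffContOnCl
      intro z h1
      rw [hcl, mem_closedBall_zero_iff] at h1
      exact (hcont z h1).differentiableWithinAt
    apply Complex.norm_le_of_forall_mem_frontier_norm_le Metric.isBounded_ball hd _
      (by rw [hcl]; simp)
    intro z h1
    rw [hfr, mem_sphere_zero_iff_norm] at h1
    exact hall z h1
  have hcr : ∀ q : ℤ[X], (aeval (0:ℂ) q : ℂ) = q.coeff 0 := by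
    intro q
    simp [Polynomial.aeval_def, Polynomial.eval₂_at_zero]
  obtain ⟨M, hM⟩ : ∃ M : ℝ, M = (E0.coeff 0 : ℝ) := ⟨_, rfl⟩
  have hM0 : 0 < M := by rw [hM]; exact_mod_cast h0
  obtain ⟨S, hS⟩ : ∃ S : ℝ, S = ((∑ i, (Ei i).coeff 0 : ℤ) : ℝ) := ⟨_, rfl⟩
  rw [← hM, ← hS]
  rw [hPs] at hmax
  simp only at hmax
  rw [norm_mul, norm_pow, norm_div, norm_mul, Complex.norm_exp, hcr, hcr, hf] at hmax
  have e1 : ‖(1:ℂ) + 0‖ = 1 := by simp
  have e2 : ‖((1:ℤ):ℂ)‖ = 1 := by simp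
  have e3 : ‖((E0.coeff 0 : ℤ) : ℂ)‖ = M := by
    rw [hM, show ((E0.coeff 0 : ℤ) : ℂ) = (((E0.coeff 0 : ℤ) : ℝ) : ℂ) by push_cast; ring, Complex.norm_real,
      Real.norm_of_nonneg (by exact_mod_cast h0.le)]
  have e4 : ((∑ i, (aeval (0:ℂ) (Ei i) : ℂ)) / ((E0.coeff 0 : ℤ) : ℂ)).re = S / M := by
    have : ((∑ i, (aeval (0:ℂ) (Ei i) : ℂ)) / ((E0.coeff 0 : ℤ) : ℂ)) = ((S / M : ℝ) : ℂ) := by
      rw [hS, hM]
      simp only [hcr]
      push_cast
      ring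
    rw [this, Complex.ofReal_re]
  rw [e1, e2, e3, e4, mul_one] at hmax
  have h5 : Real.exp (S / M) ≤ M ^ 2 := by
    have h6 : M ^ 2 * ((1 / M) ^ 2 * Real.exp (S / M)) ≤ M ^ 2 * 1 :=
      mul_le_mul_of_nonneg_left hmax (by positivity)
    calc Real.exp (S / M) = M ^ 2 * ((1 / M) ^ 2 * Real.exp (S / M)) := by field_simp
      _ ≤ M ^ 2 * 1 := h6
      _ = M ^ 2 := mul_one _
  have h6 := Real.log_le_log (Real.exp_pos _) h5
  rw [Real.log_exp, Real.log_pow, div_le_iff₀ hM0] at h6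
  push_cast at h6
  linarith

/-- `(N-1)² > (N+1) log (N+1)` for `N ≥ 4`. -/
lemma num_log (N : ℕ) (hN : 4 ≤ N) : ((N:ℝ) + 1) * Real.log ((N:ℝ) + 1) < ((N:ℝ) - 1) ^ 2 := by
  have h5 : Real.log 5 < 1.7 := by
    rw [Real.log_lt_iff_lt_exp (by norm_num)]
    have h1 : (2.7182818283:ℝ) < Real.exp 1 := Real.exp_one_gt_d9
    have h2 : Real.exp 1.7 = Real.exp 1 * Real.exp 0.7 := by rw [← Real.exp_add]; norm_num
    have h3 : (1.945:ℝ) ≤ Real.exp 0.7 := by
      have := Real.quadratic_le_exp_of_nonneg (by norm_num : (0:ℝ) ≤ 0.7)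
      linarith
    rw [h2]
    nlinarith
  have hx : (4:ℝ) ≤ N := by exact_mod_cast hN
  -- log (N+1) ≤ log 5 + (N-4)/5
  have h6 : Real.log ((N:ℝ)+1) ≤ Real.log 5 + ((N:ℝ)-4)/5 := by
    have h7 : Real.log (((N:ℝ)+1)/5) ≤ ((N:ℝ)+1)/5 - 1 := Real.log_le_sub_one_of_pos (by positivity)
    rw [Real.log_div (by positivity) (by norm_num)] at h7
    linarith
  have h8 : ((N:ℝ)+1) * Real.log ((N:ℝ)+1) ≤ ((N:ℝ)+1) * (Real.log 5 + ((N:ℝ)-4)/5) :=
    mul_le_mul_of_nonneg_left h6 (by positivity)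
  nlinarith

/-- Row POW'. -/
theorem pow_row' (N s : ℕ) (hN : 4 ≤ N) (hs : s + 2 = 2 * N) (f E0 : ℤ[X]) (Ei : Fin s → ℤ[X])
    (hst : ∀ z : ℂ, ‖z‖ = 1 → ∃ a : Finset (Fin s) → ℂ,
      (∀ (x : Fin s → ℂ) (y0 y1 : ℂ), (∀ i, ‖x i‖ < 1) → ‖y0‖ < 1 → ‖y1‖ < 1 →
        ma a x + z * aeval z f * (∏ i, (1 - x i)) * (1 - (1 - y0) * (1 - y1)) ≠ 0) ∧
      ma a 0 - aeval z f = -z * aeval z E0 ∧
      ∀ i, ma a (Pi.single i 1) = -z * aeval z (Ei i))
    (hf : f.coeff 0 = 1) (h0 : E0.coeff 0 = N + 1) (hi : ∀ i, (N:ℤ) - 1 ≤ (Ei i).coeff 0)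
    (hz : ∀ z : ℂ, ‖z‖ ≤ 1 → (aeval z E0 : ℂ) ≠ 0) : False := by
  have h1 := pow_general s f E0 Ei hst hf (by rw [h0]; positivity) hz
  have h2 : (∑ i : Fin s, ((N:ℤ) - 1)) ≤ ∑ i, (Ei i).coeff 0 := Finset.sum_le_sum (fun i _ => hi i)
  rw [Finset.sum_const, Finset.card_univ, Fintype.card_fin, nsmul_eq_mul] at h2
  have h3 : (((s:ℤ) * ((N:ℤ) - 1) : ℤ) : ℝ) ≤ ((∑ i, (Ei i).coeff 0 : ℤ) : ℝ) := by exact_mod_cast h2
  have h4 := num_log N hN
  rw [h0] at h1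
  have h5 := h3.trans h1
  have hs' : (s:ℝ) = 2 * N - 2 := by
    have : ((s + 2 : ℕ) : ℝ) = ((2 * N : ℕ) : ℝ) := by rw [hs]
    push_cast at this
    linarith
  push_cast at h5
  rw [hs'] at h5
  nlinarith

end Pool.Agent.B5.PowR
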